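import Pool.Agent.Q254.Gonal.Metric

/-!
# A graph on seven vertices whose divisorial gonality is at least five
-/

set_option autoImplicit false

namespace Pool.Agent.Q254.Gonal

open Finset

section General

variable {V E : Type} [Fintype E] [DecidableEq V] {G : MGraph V E}

theorem fire_add (f g : V → ℤ) (v : V) :
    G.fire (fun u => f u + g u) v = G.fire f v + G.fire g v := by
  unfold MGraph.fire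
  rw [← Finset.sum_add_distrib]
  refine Finset.sum_congr rfl fun e _ => ?_
  split_ifs <;> ring

theorem fire_neg (f : V → ℤ) (v : V) : G.fire (fun u => - f u) v = - G.fire f v := by
  unfold MGraph.fire
  rw [← Finset.sum_neg_distrib]
  refine Finset.sum_congr rfl fun e _ => ?_
  split_ifs <;> ring

theorem sum_fire [Fintype V] (f : V → ℤ) : ∑ v, G.fire f v = 0 := by
  unfold MGraph.fire
  rw [Finset.sum_comm]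
  refine Finset.sum_eq_zero fun e _ => ?_
  rw [Finset.sum_add_distrib]
  have h1 : ∀ v, (if G.src e = v then f (G.tgt e) - f v else 0) =
      if G.src e = v then f (G.tgt e) - f (G.src e) else 0 := fun v => by
    split_ifs with h
    · rw [h]
    · rfl
  have h2 : ∀ v, (if G.tgt e = v then f (G.src e) - f v else 0) =
      if G.tgt e = v then f (G.src e) - f (G.tgt e) else 0 := fun v => by
    split_ifs with h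
    · rw [h]
    · rfl
  simp only [h1, h2, Finset.sum_ite_eq, Finset.mem_univ, if_true]
  ring

end General

namespace Small

/-- first ends: a centre `0`, vertices `1, 2, 3` joined to the centre, vertices `4, 5, 6`; the edges
`4 2`, `5 3`, `6 1`, and three parallel edges `1 4`, `2 5`, `3 6` each -/
def S0 : Fin 15 → Fin 7 := ![0, 0, 0, 4, 5, 6, 1, 1, 1, 2, 2, 2, 3, 3, 3]

/-- second ends -/
def T0 : Fin 15 → Fin 7 := ![1, 2, 3, 2, 3, 1, 4, 4, 4, 5, 5, 5, 6, 6, 6]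

/-- the graph on seven vertices -/
def G0 : MGraph (Fin 7) (Fin 15) where
  src := S0
  tgt := T0
  ne := by decide

/-- adjacency lists -/
def adj : List (List ℤ) :=
  [[0, 1, 1, 1, 0, 0, 0], [1, 0, 0, 0, 3, 0, 1], [1, 0, 0, 0, 1, 3, 0], [1, 0, 0, 0, 0, 1, 3],
    [0, 3, 1, 0, 0, 0, 0], [0, 0, 3, 1, 0, 0, 0], [0, 1, 0, 3, 0, 0, 0]]

/-- number of edges joining two vertices -/
def ad (v u : Fin 7) : ℤ := (adj.getD v.val []).getD u.val 0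

theorem fire_eq (f : Fin 7 → ℤ) (v : Fin 7) : G0.fire f v = ∑ u, ad v u * (f u - f v) := by
  unfold MGraph.fire
  fin_cases v <;>
    simp [Fin.sum_univ_succ, G0, S0, T0, ad, adj] <;> ring

theorem ad_nonneg : ∀ v u, 0 ≤ ad v u := by decide

/-- Dhar's burning algorithm for a given burning order -/
def burn (R : Fin 7 → ℤ) : List (Fin 7) → List (Fin 7) → Bool
  | prev, [] => decide (∀ v, v ∈ prev)
  | prev, w :: ws =>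
    decide (R w < ∑ u, if u ∈ prev then ad w u else 0) && burn R (w :: prev) ws

theorem burn_spec (R g : Fin 7 → ℤ) (M : ℤ) (hM : ∀ v, g v ≤ M)
    (hR : ∀ v, 0 ≤ R v + ∑ u, ad v u * (g u - g v)) :
    ∀ ord prev, burn R prev ord = true → (∀ u ∈ prev, g u < M) → ∀ v, g v < M := by
  intro ord
  induction ord with
  | nil =>
    intro prev hb hp v
    simp only [burn, decide_eq_true_eq] at hb
    exact hp v (hb v)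
  | cons w ws ih =>
    intro prev hb hp
    simp only [burn, Bool.and_eq_true, decide_eq_true_eq] at hb
    refine ih (w :: prev) hb.2 fun u hu => ?_
    rcases List.mem_cons.1 hu with rfl | hu
    · by_contra hc
      have hgM : g u = M := le_antisymm (hM u) (not_lt.1 hc)
      have h1 : ∑ v, ad u v * (g v - g u) ≤ ∑ v, (- if v ∈ prev then ad u v else 0) := by
        refine Finset.sum_le_sum fun v _ => ?_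
        have ha := ad_nonneg u v
        have hv := hM v
        split_ifs with h
        · have := hp v h
          nlinarith
        · nlinarith
      rw [Finset.sum_neg_distrib] at h1
      linarith [hR u, hb.1]
    · exact hp u hu

/-- verification of a certificate -/
def chk (l : List ℤ) (c : Fin 7 × List ℤ × List (Fin 7)) : Bool :=
  decide (l.getD c.1.val 0 + ∑ u, ad c.1 u * (c.2.1.getD u.val 0 - c.2.1.getD c.1.val 0) ≤ 0) &&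
    burn (fun v => l.getD v.val 0 + ∑ u, ad v u * (c.2.1.getD u.val 0 - c.2.1.getD v.val 0))
      [c.1] c.2.2

theorem chk_spec (l : List ℤ) (c : Fin 7 × List ℤ × List (Fin 7)) (h : chk l c = true) :
    ∃ x, ¬ ∃ f : Fin 7 → ℤ, ∀ v : Fin 7,
      0 ≤ l.getD v.val 0 - (if v = x then 1 else 0) + G0.fire f v := by
  simp only [chk, Bool.and_eq_true, decide_eq_true_eq] at h
  refine ⟨c.1, ?_⟩
  rintro ⟨f, hf⟩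
  set k : Fin 7 → ℤ := fun v => c.2.1.getD v.val 0 with hk
  set g : Fin 7 → ℤ := fun u => f u + - k u with hg
  set R : Fin 7 → ℤ := fun v => l.getD v.val 0 + ∑ u, ad v u * (k u - k v) with hR
  have hfg : ∀ v, 0 ≤ R v - (if v = c.1 then 1 else 0) + ∑ u, ad v u * (g u - g v) := by
    intro v
    have h1 : G0.fire g v = G0.fire f v - G0.fire k v := by
      have := fire_add (G := G0) f (fun u => - k u) v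
      rw [fire_neg] at this
      rw [hg, this]
      ring
    rw [← fire_eq, h1, hR]
    simp only
    rw [← fire_eq k v]
    linarith [hf v]
  obtain ⟨m, hm⟩ := Finite.exists_max g
  have hlt := burn_spec R g (g m) hm (fun v => by
    have := hfg v
    split_ifs at this <;> linarith) c.2.2 [c.1] h.2 (by
    intro u hu
    rw [List.mem_singleton] at hu
    subst hu
    by_contra hc
    have hgM : g c.1 = g m := le_antisymm (hm _) (not_lt.1 hc)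
    have h1 : ∑ u, ad c.1 u * (g u - g c.1) ≤ 0 := Finset.sum_nonpos fun u _ => by
      have := ad_nonneg c.1 u
      have := hm u
      nlinarith
    have h2 := hfg c.1
    rw [if_pos rfl] at h2
    have h3 : R c.1 ≤ 0 := h.1
    linarith)
  exact absurd (hlt m) (lt_irrefl _)

/-- lists of `n` nonnegative integers with sum `s` -/
def comps : ℕ → ℕ → List (List ℤ)
  | 0, 0 => [[]]
  | 0, _ + 1 => []
  | n + 1, s => (List.range (s + 1)).flatMap fun k => (comps n (s - k)).map ((k : ℤ) :: ·)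

theorem mem_comps : ∀ (n s : ℕ) (l : List ℤ), l.length = n → (∀ x ∈ l, 0 ≤ x) →
    l.sum = (s : ℤ) → l ∈ comps n s := by
  intro n
  induction n with
  | zero =>
    intro s l hl _ hs
    have : l = [] := List.length_eq_zero_iff.1 hl
    subst this
    simp only [List.sum_nil] at hs
    have : s = 0 := by exact_mod_cast hs.symm
    subst this
    simp [comps]
  | succ n ih =>
    intro s l hl h0 hs
    obtain ⟨a, l', rfl⟩ := List.exists_cons_of_length_eq_add_one hl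
    have ha : 0 ≤ a := h0 a (by simp)
    have hl' : 0 ≤ l'.sum := List.sum_nonneg fun x hx => h0 x (by simp [hx])
    rw [List.sum_cons] at hs
    obtain ⟨k, rfl⟩ := Int.eq_ofNat_of_zero_le ha
    have hks : k ≤ s := by
      have : (k : ℤ) ≤ s := by
        have : ((k : ℕ) : ℤ) + l'.sum = s := hs
        linarith
      exact_mod_cast this
    rw [comps, List.mem_flatMap]
    refine ⟨k, List.mem_range.2 (by omega), List.mem_map.2 ⟨l', ?_, rfl⟩⟩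
    refine ih (s - k) l' (by simpa using hl) (fun x hx => h0 x (by simp [hx])) ?_
    rw [Nat.cast_sub hks]
    have : ((k : ℕ) : ℤ) + l'.sum = s := hs
    linarith

/-- verification of a list of certificates -/
def chkAll : List (List ℤ) → List (Fin 7 × List ℤ × List (Fin 7)) → Bool
  | [], _ => true
  | _ :: _, [] => false
  | l :: ls, c :: cs => chk l c && chkAll ls cs

theorem chkAll_spec : ∀ ls cs, chkAll ls cs = true → ∀ l ∈ ls, ∃ c, chk l c = true := by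
  intro ls
  induction ls with
  | nil => simp
  | cons a ls ih =>
    intro cs h l hl
    cases cs with
    | nil => simp [chkAll] at h
    | cons c cs =>
      rw [chkAll, Bool.and_eq_true] at h
      rcases List.mem_cons.1 hl with rfl | hl
      · exact ⟨c, h.1⟩
      · exact ih cs h.2 l hl

/-- the certificates -/
def certs : List (Fin 7 × List ℤ × List (Fin 7)) :=
  [(0,[0,0,0,0,0,0,1],[2,4,5,1,6,3]), (0,[0,0,0,0,0,0,0],[1,2,3,4,5,6]),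
  (0,[0,0,0,0,0,0,0],[1,2,3,4,5,6]), (0,[0,0,0,0,0,0,0],[1,2,3,4,5,6]),
  (0,[0,0,0,0,0,1,0],[1,4,6,3,5,2]), (0,[0,0,0,0,0,0,0],[1,2,3,4,5,6]),
  (0,[0,0,0,0,0,0,0],[1,2,3,4,5,6]), (0,[0,0,0,0,0,0,0],[1,2,3,4,5,6]),
  (0,[0,0,0,0,0,0,0],[1,2,3,4,5,6]), (0,[0,0,0,0,0,0,0],[1,2,3,4,5,6]),
  (0,[0,0,0,0,0,0,0],[1,2,3,4,5,6]), (0,[0,0,0,0,0,0,0],[1,2,3,4,5,6]),
  (0,[0,0,0,0,0,0,0],[1,2,3,4,5,6]), (0,[0,0,0,0,0,0,0],[1,2,3,4,5,6]),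
  (0,[0,0,0,0,1,0,0],[3,5,6,2,4,1]), (0,[0,0,0,0,0,0,0],[1,2,4,5,3,6]),
  (0,[0,0,0,0,0,0,0],[1,2,4,5,3,6]), (0,[0,0,0,0,0,0,0],[1,2,4,5,3,6]),
  (0,[0,0,0,0,0,0,0],[1,2,4,6,3,5]), (0,[0,0,0,0,0,0,0],[1,2,4,5,3,6]),
  (0,[0,0,0,0,0,0,0],[1,2,4,5,3,6]), (0,[0,0,0,0,0,0,0],[1,2,4,5,6,3]),
  (0,[0,0,0,0,0,0,0],[1,2,4,5,3,6]), (0,[0,0,0,0,0,0,0],[1,2,4,5,6,3]),
  (0,[0,0,0,0,0,0,0],[1,2,4,5,6,3]), (2,[0,0,0,1,0,0,1],[4,5,1,3,6,0]),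
  (2,[0,0,0,1,0,0,1],[4,5,1,3,6,0]), (0,[0,0,0,0,0,0,0],[1,2,4,5,6,3]),
  (2,[0,0,0,1,0,0,1],[5,3,6,0,1,4]), (0,[0,0,0,0,0,0,0],[1,2,4,5,6,3]),
  (0,[0,0,0,0,0,0,0],[1,2,4,5,6,3]), (2,[0,0,0,1,0,0,1],[4,5,1,6,0,3]),
  (0,[0,0,0,0,0,0,0],[1,2,4,5,6,3]), (0,[0,0,0,0,0,0,0],[1,2,4,5,6,3]),
  (0,[0,0,0,0,0,0,0],[1,2,4,5,6,3]), (0,[0,0,0,0,0,0,0],[1,3,4,5,6,2]),
  (0,[0,0,0,0,0,0,0],[1,3,4,6,2,5]), (0,[0,0,0,0,0,0,0],[1,3,4,6,2,5]),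
  (0,[0,0,0,0,0,0,0],[1,3,4,6,2,5]), (0,[0,0,0,0,0,0,0],[1,3,4,5,6,2]),
  (0,[0,0,0,0,0,0,0],[1,3,4,6,2,5]), (0,[0,0,0,0,0,0,0],[1,3,4,6,2,5]),
  (0,[0,0,0,0,0,0,0],[1,3,4,5,6,2]), (0,[0,0,0,0,0,0,0],[1,3,4,6,2,5]),
  (0,[0,0,0,0,0,0,0],[1,3,5,6,2,4]), (0,[0,0,0,0,0,0,0],[1,4,2,5,3,6]),
  (0,[0,0,0,0,0,0,0],[1,4,2,5,3,6]), (0,[0,0,0,0,0,0,0],[1,4,6,2,3,5]),
  (0,[0,0,0,0,0,0,0],[1,4,2,5,3,6]), (0,[0,0,0,0,0,0,0],[1,4,6,2,3,5]),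
  (0,[0,0,0,0,0,0,0],[1,4,6,2,3,5]), (4,[0,0,0,1,0,0,1],[1,6,3,0,2,5]),
  (0,[0,0,0,0,0,0,0],[1,4,6,2,3,5]), (0,[0,0,0,0,0,0,0],[1,4,6,2,3,5]),
  (0,[0,0,0,0,0,0,0],[1,4,6,2,3,5]), (0,[0,0,0,0,0,0,0],[1,3,4,5,6,2]),
  (1,[0,0,1,0,0,1,0],[4,2,5,0,3,6]), (1,[0,0,1,0,0,1,0],[4,6,2,3,5,0]),
  (0,[0,0,0,0,0,0,0],[1,3,4,5,6,2]), (1,[0,0,1,0,0,1,0],[4,6,2,3,5,0]),
  (0,[0,0,0,0,0,0,0],[1,3,4,5,6,2]), (5,[0,0,0,0,0,0,0],[2,4,0,1,3,6]),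
  (1,[0,0,1,0,0,1,0],[4,6,2,3,5,0]), (0,[0,0,0,0,0,0,0],[1,4,6,3,5,2]),
  (0,[0,0,0,0,0,0,0],[1,4,6,3,5,2]), (0,[0,0,0,0,0,0,0],[1,3,4,5,6,2]),
  (1,[0,0,1,0,0,1,0],[4,6,3,5,0,2]), (0,[0,0,0,0,0,0,0],[1,3,4,5,6,2]),
  (0,[0,0,0,0,0,0,0],[1,4,6,3,5,2]), (0,[0,0,0,0,0,0,0],[1,3,4,5,6,2]),
  (0,[0,0,0,0,0,0,0],[2,3,4,5,1,6]), (0,[0,0,0,0,0,0,0],[2,3,4,5,6,1]),
  (0,[0,0,0,0,0,0,0],[2,3,4,5,6,1]), (0,[0,0,0,0,0,0,0],[2,3,4,5,6,1]),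
  (0,[0,0,0,0,0,0,0],[2,3,5,6,1,4]), (0,[0,0,0,0,0,0,0],[2,3,5,6,1,4]),
  (0,[0,0,0,0,0,0,0],[2,3,5,6,1,4]), (0,[0,0,0,0,0,0,0],[2,3,5,6,1,4]),
  (0,[0,0,0,0,0,0,0],[2,3,5,6,1,4]), (0,[0,0,0,0,0,0,0],[2,3,5,6,1,4]),
  (0,[0,0,0,0,0,0,0],[2,4,5,1,3,6]), (0,[0,0,0,0,0,0,0],[2,4,5,1,3,6]),
  (0,[0,0,0,0,0,0,0],[2,4,5,1,3,6]), (0,[0,0,0,0,0,0,0],[2,5,3,6,1,4]),
  (0,[0,0,0,0,0,0,0],[2,5,3,6,1,4]), (0,[0,0,0,0,0,0,0],[2,5,3,6,1,4]),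
  (2,[0,0,0,1,0,0,1],[4,5,1,3,6,0]), (0,[0,0,0,0,0,0,0],[2,4,5,1,6,3]),
  (6,[0,0,0,0,0,0,0],[3,5,0,1,2,4]), (0,[0,0,0,0,0,0,0],[2,4,5,1,6,3]),
  (0,[0,0,0,0,0,0,0],[3,5,6,1,2,4]), (0,[0,0,0,0,0,0,0],[3,6,1,4,2,5]),
  (0,[0,0,0,0,0,0,0],[3,6,1,4,2,5]), (0,[0,0,0,0,0,0,0],[3,5,6,1,2,4]),
  (0,[0,0,0,0,0,0,0],[3,6,1,4,2,5]), (0,[0,0,0,0,0,0,0],[3,5,6,1,2,4]),
  (4,[0,0,0,0,0,0,0],[1,0,2,5,3,6]), (4,[0,0,0,0,0,0,0],[1,6,0,2,3,5]),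
  (5,[0,0,0,0,0,0,0],[2,0,3,6,1,4]), (4,[0,0,0,0,0,0,0],[1,6,0,2,3,5]),
  (0,[0,0,0,0,0,0,0],[3,5,6,1,2,4]), (6,[0,0,1,0,0,1,0],[3,5,2,0,1,4]),
  (0,[0,0,0,0,0,0,0],[3,5,6,1,2,4]), (4,[0,0,0,0,0,0,0],[1,6,0,3,5,2]),
  (0,[0,0,0,0,0,0,0],[3,5,6,1,2,4]), (0,[0,0,0,0,0,0,0],[2,3,4,5,6,1]),
  (0,[0,0,0,0,0,0,0],[2,3,4,5,6,1]), (0,[0,0,0,0,0,0,0],[2,3,4,5,6,1]),
  (3,[0,1,0,0,1,0,0],[5,6,1,2,4,0]), (3,[0,1,0,0,1,0,0],[6,1,4,0,2,5]),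
  (3,[0,1,0,0,1,0,0],[5,6,1,2,4,0]), (0,[0,0,0,0,0,0,0],[2,4,5,1,3,6]),
  (0,[0,0,0,0,0,0,0],[2,4,5,1,3,6]), (5,[0,1,0,0,1,0,0],[2,4,1,0,3,6]),
  (0,[0,0,0,0,0,0,0],[2,4,5,1,6,3]), (0,[0,0,0,0,0,0,0],[3,5,6,2,4,1]),
  (4,[0,0,0,0,0,0,0],[1,6,0,2,3,5]), (3,[0,1,0,0,1,0,0],[5,6,1,2,4,0]),
  (4,[0,0,0,0,0,0,0],[1,6,0,2,3,5]), (0,[0,0,0,0,0,0,0],[3,5,6,2,4,1]),
  (0,[0,0,0,0,0,0,0],[2,3,4,5,6,1]), (0,[0,0,0,0,0,0,0],[2,3,4,5,6,1]),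
  (3,[0,1,0,0,1,0,0],[5,6,2,4,0,1]), (0,[0,0,0,0,0,0,0],[2,4,5,1,3,6]),
  (0,[0,0,0,0,0,0,0],[3,5,6,2,4,1]), (0,[0,0,0,0,0,0,0],[2,3,4,5,6,1]),
  (1,[0,0,0,0,0,0,0],[4,2,5,0,3,6]), (1,[0,0,0,0,0,0,0],[4,2,5,0,3,6]),
  (1,[0,0,0,0,0,0,0],[4,2,5,0,3,6]), (1,[0,0,0,0,0,0,0],[4,6,2,3,5,0]),
  (1,[0,0,0,0,0,0,0],[4,2,5,0,3,6]), (1,[0,0,0,0,0,0,0],[4,2,5,0,3,6]),
  (1,[0,0,0,0,0,0,0],[4,6,2,3,5,0]), (1,[0,0,0,0,0,0,0],[4,2,5,0,3,6]),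
  (1,[0,0,0,0,0,0,0],[4,6,2,3,5,0]), (1,[0,0,0,0,0,0,0],[6,3,5,0,2,4]),
  (1,[0,0,0,0,0,0,0],[4,2,5,0,3,6]), (1,[0,0,0,0,0,0,0],[4,2,5,0,3,6]),
  (1,[0,0,0,0,0,0,0],[4,6,2,3,5,0]), (1,[0,0,0,0,0,0,0],[4,2,5,0,3,6]),
  (1,[0,0,0,0,0,0,0],[4,6,2,3,5,0]), (1,[0,0,0,0,0,0,0],[4,6,2,3,5,0]),
  (2,[0,0,0,1,0,0,1],[4,5,1,3,6,0]), (1,[0,0,0,0,0,0,0],[4,6,2,3,5,0]),
  (1,[0,0,0,0,0,0,0],[4,6,2,3,5,0]), (1,[0,0,0,0,0,0,0],[4,6,2,5,0,3]),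
  (3,[0,0,0,0,0,0,0],[5,6,1,2,4,0]), (3,[0,0,0,0,0,0,0],[6,1,4,0,2,5]),
  (1,[0,0,0,0,0,0,0],[4,6,3,0,2,5]), (3,[0,0,0,0,0,0,0],[5,6,1,2,4,0]),
  (1,[0,0,0,0,0,0,0],[4,6,3,0,2,5]), (1,[0,0,0,0,0,0,0],[4,6,3,5,0,2]),
  (5,[0,0,0,0,0,0,0],[2,4,1,0,3,6]), (1,[0,0,0,0,0,0,0],[4,6,3,0,2,5]),
  (1,[0,0,0,0,0,0,0],[4,6,3,5,0,2]), (1,[0,0,0,0,0,0,0],[4,6,3,5,0,2]),
  (3,[0,0,0,0,0,0,0],[5,6,1,2,4,0]), (1,[0,0,1,0,0,1,0],[4,6,2,3,5,0]),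
  (1,[0,0,0,0,0,0,0],[4,6,3,5,0,2]), (1,[0,0,0,0,0,0,0],[4,6,3,5,0,2]),
  (1,[0,0,0,0,0,0,0],[4,6,3,5,0,2]), (2,[0,0,0,0,0,0,0],[4,5,1,3,6,0]),
  (2,[0,0,0,0,0,0,0],[4,5,1,3,6,0]), (2,[0,0,0,0,0,0,0],[4,5,1,3,6,0]),
  (2,[0,0,0,0,0,0,0],[5,3,6,0,1,4]), (2,[0,0,0,0,0,0,0],[5,3,6,0,1,4]),
  (2,[0,0,0,0,0,0,0],[5,3,6,0,1,4]), (2,[0,0,0,0,0,0,0],[4,5,1,0,3,6]),
  (2,[0,0,0,0,0,0,0],[4,5,1,6,0,3]), (6,[0,0,0,0,0,0,0],[3,5,2,0,1,4]),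
  (2,[0,0,0,0,0,0,0],[4,5,1,6,0,3]), (3,[0,0,0,0,0,0,0],[5,6,2,4,0,1]),
  (4,[0,0,0,0,0,0,0],[1,6,3,0,2,5]), (3,[0,0,0,0,0,0,0],[5,6,2,0,1,4]),
  (4,[0,0,0,0,0,0,0],[1,6,3,5,0,2]), (3,[0,0,0,0,0,0,0],[5,6,2,4,0,1]),
  (2,[0,0,0,0,0,0,0],[4,5,1,3,6,0]), (2,[0,0,0,0,0,0,0],[4,5,1,3,6,0]),
  (3,[0,1,0,0,1,0,0],[5,6,1,2,4,0]), (2,[0,0,0,0,0,0,0],[4,5,1,6,0,3]),
  (3,[0,0,0,0,0,0,0],[5,6,2,4,0,1]), (2,[0,0,0,0,0,0,0],[4,5,3,6,0,1]),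
  (1,[0,0,0,0,0,0,0],[4,2,5,3,6,0]), (1,[0,0,0,0,0,0,0],[4,2,5,3,6,0]),
  (1,[0,0,0,0,0,0,0],[4,6,2,3,5,0]), (1,[0,0,0,0,0,0,0],[4,2,5,3,6,0]),
  (1,[0,0,0,0,0,0,0],[4,6,2,3,5,0]), (1,[0,0,0,0,0,0,0],[4,6,2,3,5,0]),
  (4,[1,0,0,1,0,0,1],[1,6,0,2,3,5]), (1,[0,0,0,0,0,0,0],[4,6,2,3,5,0]),
  (1,[0,0,0,0,0,0,0],[4,6,2,3,5,0]), (1,[0,0,0,0,0,0,0],[4,6,2,3,5,0]),
  (3,[0,0,0,0,0,0,0],[5,6,1,2,4,0]), (6,[1,0,1,0,0,1,0],[3,5,0,1,2,4]),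
  (1,[0,0,0,0,0,0,0],[4,6,3,5,2,0]), (1,[0,0,0,0,0,0,0],[4,6,3,5,2,0]),
  (1,[0,0,0,0,0,0,0],[4,6,3,5,2,0]), (2,[0,0,0,0,0,0,0],[4,5,1,3,6,0]),
  (2,[0,0,0,0,0,0,0],[4,5,1,3,6,0]), (5,[1,1,0,0,1,0,0],[2,4,0,1,3,6]),
  (2,[0,0,0,0,0,0,0],[4,5,1,6,3,0]), (3,[0,0,0,0,0,0,0],[5,6,2,4,1,0]),
  (2,[0,0,0,0,0,0,0],[4,5,1,3,6,0]), (4,[1,0,0,0,0,0,0],[1,0,2,5,3,6]),
  (4,[1,0,0,0,0,0,0],[1,6,0,2,3,5]), (5,[1,0,0,0,0,0,0],[2,0,3,6,1,4]),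
  (4,[1,0,0,0,0,0,0],[1,6,0,2,3,5]), (4,[1,0,0,0,0,0,0],[1,6,0,3,5,2]),
  (4,[1,0,0,0,0,0,0],[1,6,0,2,3,5]), (4,[1,0,0,0,0,0,0],[1,6,3,5,0,2])]

theorem all_ok : chkAll (comps 7 4) certs = true := by decide +kernel

/-- no divisor of degree at most four has positive rank -/
theorem bad (D : Fin 7 → ℤ) (hD : ∑ v, D v ≤ 4) :
    ∃ x, ¬ ∃ f : Fin 7 → ℤ, ∀ v, 0 ≤ D v - (if v = x then 1 else 0) + G0.fire f v := by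
  by_cases hwin : ∃ f : Fin 7 → ℤ, ∀ v, 0 ≤ D v + G0.fire f v
  · obtain ⟨f₀, hf₀⟩ := hwin
    set C : Fin 7 → ℤ := fun v => D v + G0.fire f₀ v + if v = 0 then 4 - ∑ v, D v else 0 with hC
    have hC0 : ∀ v, 0 ≤ C v := fun v => by
      simp only [hC]
      have := hf₀ v
      split_ifs <;> linarith
    have hsum : ∑ v, C v = 4 := by
      simp only [hC, Finset.sum_add_distrib, sum_fire]
      simp
    have hmem : List.ofFn C ∈ comps 7 4 := by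
      refine mem_comps 7 4 _ (by simp) ?_ ?_
      · intro x hx
        rw [List.mem_ofFn] at hx
        obtain ⟨v, rfl⟩ := hx
        exact hC0 v
      · rw [List.sum_ofFn, hsum]
        norm_num
    obtain ⟨c, hc⟩ := chkAll_spec _ _ all_ok _ hmem
    obtain ⟨x, hx⟩ := chk_spec _ c hc
    refine ⟨x, fun ⟨f, hf⟩ => hx ⟨fun u => f u + - f₀ u, fun v => ?_⟩⟩
    have h1 : (List.ofFn C).getD v.val 0 = C v := by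
      rw [List.getD_eq_getElem _ _ (by simp), List.getElem_ofFn]
    rw [h1, fire_add, fire_neg]
    have h2 := hf v
    simp only [hC]
    split_ifs at h2 ⊢ <;> linarith
  · refine ⟨0, fun ⟨f, hf⟩ => hwin ⟨f, fun v => ?_⟩⟩
    have := hf v
    split_ifs at this <;> linarith

end Small

end Pool.Agent.Q254.Gonal
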