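import Pool.Agent.Q254.Gonal.Lower
import Pool.Agent.Q254.Gonal.Small

/-!
# A graph and its metric graph with the same gonality and different second gonality
-/

set_option autoImplicit false

namespace Pool.Agent.Q254.Gonal

open Finset

section General

variable {V E : Type} [Fintype E] [DecidableEq V] {G : MGraph V E}

theorem rankGe_one_of [Fintype V] (D : V → ℤ)
    (h : ∀ y, ∃ f : V → ℤ, ∀ v, 0 ≤ D v - (if v = y then 1 else 0) + G.fire f v) :
    G.RankGe 1 D := by
  intro A hA hsum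
  have hex : ∃ y, A y ≠ 0 := by
    by_contra hc
    push Not at hc
    rw [Finset.sum_eq_zero fun v _ => hc v] at hsum
    norm_num at hsum
  obtain ⟨y, hy⟩ := hex
  have hy1 : 1 ≤ A y := by
    have := hA y
    omega
  obtain ⟨f, hf⟩ := h y
  refine ⟨f, fun v => ?_⟩
  have hle : A v ≤ if v = y then 1 else 0 := by
    split_ifs with hv
    · calc A v ≤ ∑ w, A w := Finset.single_le_sum (fun w _ => hA w) (Finset.mem_univ v)
        _ = 1 := by rw [hsum]; norm_num
    · have : A y + A v ≤ ∑ w, A w := by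
        rw [← Finset.sum_pair (Ne.symm hv)]
        exact Finset.sum_le_sum_of_subset_of_nonneg (Finset.subset_univ _) fun w _ _ => hA w
      rw [hsum] at this
      push_cast at this
      linarith
  linarith [hf v]

/-- the midpoint of an edge -/
noncomputable def mid : Set.Ioo (0 : ℝ) 1 := ⟨1 / 2, by norm_num, by norm_num⟩

/-- the divisor with `Dv v` chips at the vertex `v` and `Dm e` chips at the midpoint of `e` -/
noncomputable def hd (Dv : V → ℤ) (Dm : E → ℤ) : Pt V E → ℤ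
  | Sum.inl v => Dv v
  | Sum.inr (e, t) => if (t : ℝ) = 1 / 2 then Dm e else 0

/-- the same with finite support -/
noncomputable def embH [Fintype V] (Dv : V → ℤ) (Dm : E → ℤ) : Pt V E →₀ ℤ :=
  emb Dv + ∑ e, Finsupp.single (Sum.inr (e, mid)) (Dm e)

theorem embH_apply [Fintype V] (Dv : V → ℤ) (Dm : E → ℤ) (x : Pt V E) :
    embH Dv Dm x = hd Dv Dm x := by
  classical
  rw [embH, Finsupp.add_apply, Finsupp.finsetSum_apply]
  rcases x with v | ⟨e, t⟩
  · rw [emb_inl, Finset.sum_eq_zero, add_zero, hd]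
    intro e _
    rw [Finsupp.single_apply, if_neg (by simp)]
  · rw [emb_inr, zero_add, hd, Finset.sum_eq_single e]
    · rw [Finsupp.single_apply]
      by_cases h : (t : ℝ) = 1 / 2
      · rw [if_pos h, if_pos]
        rw [show t = mid from Subtype.ext h]
      · rw [if_neg h, if_neg]
        intro h'
        simp only [Sum.inr.injEq, Prod.mk.injEq, true_and] at h'
        exact h (by rw [← h']; rfl)
    · intro e' _ hne
      rw [Finsupp.single_apply, if_neg]
      intro h'
      simp only [Sum.inr.injEq, Prod.mk.injEq] at h'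
      exact hne h'.1
    · intro h
      exact absurd (Finset.mem_univ e) h

theorem deg_embH [Fintype V] (Dv : V → ℤ) (Dm : E → ℤ) :
    deg (embH Dv Dm) = ∑ v, Dv v + ∑ e, Dm e := by
  classical
  have : ∀ s : Finset E, deg (∑ e ∈ s, Finsupp.single (Sum.inr (e, mid)) (Dm e) : Pt V E →₀ ℤ) =
      ∑ e ∈ s, Dm e := by
    intro s
    induction s using Finset.induction_on with
    | empty => simp [deg]
    | insert a s ha ih => rw [Finset.sum_insert ha, Finset.sum_insert ha, deg_add, deg_single, ih]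
  rw [embH, deg_add, deg_emb, this]

theorem win_half (Dv : V → ℤ) (Dm : E → ℤ) (h : V → ℤ) (s₁ s₂ : E → ℤ)
    (H : ∀ e, h (G.tgt e) = h (G.src e) + s₁ e + s₂ e)
    (hv : ∀ v, 0 ≤ Dv v + ∑ e : E, ((if G.src e = v then s₁ e else 0) +
      (if G.tgt e = v then - s₂ e else 0)))
    (hm : ∀ e, 0 ≤ Dm e + s₂ e - s₁ e) : Win G (hd Dv Dm) := by
  refine ⟨RatFun.knot G (fun v => (h v : ℝ) / 2) s₁ s₂ (fun e => by rw [H]; push_cast; ring), ?_⟩
  rintro (v | ⟨e, t⟩)
  · rw [RatFun.div_knot_vertex]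
    exact hv v
  · rw [RatFun.div_knot_edge, hd]
    split_ifs
    · linarith [hm e]
    · exact le_rfl

theorem win_int (Dv : V → ℤ) (f : V → ℤ) (h : ∀ v, 0 ≤ Dv v + G.fire f v) :
    Win G (hd Dv (fun _ => 0)) := by
  refine win_of_fire Dv f h _ (fun v => le_rfl) ?_
  rintro ⟨e, t⟩
  rw [hd]
  split_ifs <;> exact le_rfl

theorem Win.hd_add {Dv Dv' : V → ℤ} {Dm Dm' : E → ℤ} (h : Win G (hd Dv Dm))
    (h' : Win G (hd Dv' Dm')) :
    Win G (hd (fun v => Dv v + Dv' v) (fun e => Dm e + Dm' e)) := by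
  refine (h.add h').congr ?_
  rintro (v | ⟨e, t⟩)
  · rfl
  · simp only [hd]
    split_ifs <;> simp

theorem Win.hd_congr {Dv Dv' : V → ℤ} {Dm Dm' : E → ℤ} (h : Win G (hd Dv Dm))
    (hv : ∀ v, Dv v = Dv' v) (hm : ∀ e, Dm e = Dm' e) : Win G (hd Dv' Dm') := by
  have e1 : Dv = Dv' := funext hv
  have e2 : Dm = Dm' := funext hm
  rwa [← e1, ← e2]

theorem mrank_one_of [Fintype V] (Dv : V → ℤ) (Dm : E → ℤ)
    (H : ∀ x : V, Win G (hd (fun v => Dv v - if v = x then 1 else 0) Dm)) :
    G.MRankGe 1 (embH Dv Dm) := by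
  refine mrank_of_vertices _ 1 fun m hm => ?_
  obtain ⟨x, rfl⟩ := List.length_eq_one_iff.1 hm
  refine (H x).congr fun p => ?_
  rw [embH_apply, List.map_cons, cnt_cons, List.map_nil, cnt_nil]
  rcases p with v | ⟨e, t⟩
  · simp only [hd, one, Sum.inl.injEq]
    ring
  · rw [one_ne (by simp)]
    simp only [hd]
    ring

theorem mrank_two_of [Fintype V] (Dv : V → ℤ) (Dm : E → ℤ)
    (H : ∀ x y : V, Win G (hd (fun v => Dv v - (if v = x then 1 else 0) -
      (if v = y then 1 else 0)) Dm)) : G.MRankGe 2 (embH Dv Dm) := by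
  refine mrank_of_vertices _ 2 fun m hm => ?_
  obtain ⟨x, y, rfl⟩ := List.length_eq_two.1 hm
  refine (H x y).congr fun p => ?_
  rw [embH_apply, List.map_cons, cnt_cons, List.map_cons, cnt_cons, List.map_nil, cnt_nil]
  rcases p with v | ⟨e, t⟩
  · simp only [hd, one, Sum.inl.injEq]
    ring
  · rw [one_ne (by simp), one_ne (by simp)]
    simp only [hd]
    ring

end General

namespace Example

open Small

/-- edges of the complete graph on nine vertices -/
abbrev E9 := {p : Fin 9 × Fin 9 // p.1 < p.2}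

/-- the complete graph on nine vertices -/
def K9 : MGraph (Fin 9) E9 where
  src p := p.1.1
  tgt p := p.1.2
  ne p := ne_of_lt p.2

/-- vertices of the complete graph in the large graph; the vertex `0` is glued to the vertex `1` of
the small graph -/
def κ : Fin 9 → Fin 7 ⊕ Fin 8 := Fin.cons (Sum.inl 1) Sum.inr

theorem κ_inj : Function.Injective κ := by decide

/-- the small graph and the complete graph glued at a vertex -/
def G : MGraph (Fin 7 ⊕ Fin 8) (Fin 15 ⊕ E9) where
  src := Sum.elim (fun e => Sum.inl (S0 e)) (fun p => κ p.1.1)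
  tgt := Sum.elim (fun e => Sum.inl (T0 e)) (fun p => κ p.1.2)
  ne := by
    rintro (e | p)
    · exact fun h => G0.ne e (Sum.inl_injective h)
    · exact fun h => (ne_of_lt p.2) (κ_inj h)

/-- the complete graph inside itself -/
def hasK9 : HasK K9 9 where
  κ := id
  ι i j := if h : i < j then ⟨(i, j), h⟩ else ⟨(0, 1), by decide⟩
  inj := Function.injective_id
  src_eq i j h := by simp [h, K9]
  tgt_eq i j h := by simp [h, K9]

/-- the complete graph inside `G` -/
def hasK : HasK G 9 where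
  κ := κ
  ι i j := if h : i < j then Sum.inr ⟨(i, j), h⟩ else Sum.inl 0
  inj := κ_inj
  src_eq i j h := by simp [h, G]
  tgt_eq i j h := by simp [h, G]

theorem bad9 (C : Fin 9 → ℤ) (hC : ∑ v, C v ≤ 7) :
    ∃ y, ¬ ∃ f : Fin 9 → ℤ, ∀ v, 0 ≤ C v - (if v = y then 1 else 0) + K9.fire f v := by
  by_contra hcon
  push Not at hcon
  have h1 := mrank_of_rank C 1 (rankGe_one_of (G := K9) C hcon)
  have h2 := le_deg_of_rank hasK9 (by norm_num) _ h1
  rw [deg_emb] at h2
  push_cast at h2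
  linarith

theorem fire_inl (f : Fin 7 ⊕ Fin 8 → ℤ) (u : Fin 7) :
    G.fire f (Sum.inl u) = G0.fire (fun w => f (Sum.inl w)) u +
      if u = 1 then K9.fire (fun i => f (κ i)) 0 else 0 := by
  have hk : ∀ i : Fin 9, κ i = Sum.inl u ↔ (i = 0 ∧ u = 1) := by
    intro i
    revert u i
    decide
  unfold MGraph.fire
  rw [Fintype.sum_sum_type]
  congr 1
  · refine Finset.sum_congr rfl fun e _ => ?_
    by_cases h1 : S0 e = u <;> by_cases h2 : T0 e = u <;> simp [G, G0, h1, h2]
  · by_cases hu : u = 1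
    · rw [if_pos hu]
      subst hu
      refine Finset.sum_congr rfl fun p _ => ?_
      have hk0 : κ 0 = Sum.inl 1 := rfl
      by_cases h1 : p.1.1 = 0 <;> by_cases h2 : p.1.2 = 0 <;> simp [G, K9, hk, h1, h2, hk0]
    · rw [if_neg hu]
      refine Finset.sum_eq_zero fun p _ => ?_
      simp only [G, Sum.elim_inr, hk, hu, and_false, if_false]
      rfl

theorem fire_inr (f : Fin 7 ⊕ Fin 8 → ℤ) (j : Fin 8) :
    G.fire f (Sum.inr j) = K9.fire (fun i => f (κ i)) j.succ := by
  have hk : ∀ i : Fin 9, κ i = Sum.inr j ↔ i = j.succ := by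
    intro i
    revert j i
    decide
  unfold MGraph.fire
  rw [Fintype.sum_sum_type, Finset.sum_eq_zero, zero_add]
  · refine Finset.sum_congr rfl fun p _ => ?_
    simp only [G, Sum.elim_inr, hk, K9]
    rfl
  · intro e _
    simp [G]

/-- a divisor of degree at most twelve on the graph does not have rank two -/
theorem bad2 (D : Fin 7 ⊕ Fin 8 → ℤ) (hD : ∑ v, D v ≤ 12) :
    ∃ x y, ¬ ∃ f : Fin 7 ⊕ Fin 8 → ℤ,
      ∀ v, 0 ≤ D v - (if v = x then 1 else 0) - (if v = y then 1 else 0) + G.fire f v := by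
  set D1 : Fin 7 → ℤ := fun u => D (Sum.inl u) with hD1
  set D2 : Fin 9 → ℤ := Fin.cons 0 (fun j => D (Sum.inr j)) with hD2
  have hsum : ∑ v, D v = ∑ u, D1 u + ∑ i, D2 i := by
    rw [Fintype.sum_sum_type, hD2, Fin.sum_univ_succ]
    simp [hD1]
  set t₀ : ℤ := ∑ u, D1 u - 4 with ht₀
  obtain ⟨x, hx⟩ := Small.bad (fun u => D1 u + if u = 1 then - t₀ else 0) (by
    rw [Finset.sum_add_distrib]
    simp only [Finset.sum_ite_eq', Finset.mem_univ, if_true]
    linarith)
  obtain ⟨y, hy⟩ := bad9 (fun i => D2 i + if i = 0 then t₀ - 1 else 0) (by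
    rw [Finset.sum_add_distrib]
    simp only [Finset.sum_ite_eq', Finset.mem_univ, if_true]
    linarith)
  refine ⟨Sum.inl x, κ y, ?_⟩
  rintro ⟨f, hf⟩
  have hκ1 : ∀ (i : Fin 9) (u : Fin 7), Sum.inl u = κ i ↔ (i = 0 ∧ u = 1) := by decide
  have hκ2 : ∀ (i : Fin 9) (j : Fin 8), Sum.inr j = κ i ↔ i = j.succ := by decide
  have h1 := hf (Sum.inl 1)
  rw [fire_inl, if_pos rfl] at h1
  simp only [Sum.inl.injEq, hκ1, and_true] at h1
  rcases le_or_gt t₀ (D1 1 - (if (1 : Fin 7) = x then 1 else 0) +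
    G0.fire (fun w => f (Sum.inl w)) 1) with c | c
  · refine hx ⟨fun w => f (Sum.inl w), fun u => ?_⟩
    by_cases hu : u = 1
    · subst hu
      rw [if_pos rfl]
      linarith
    · have h2 := hf (Sum.inl u)
      rw [fire_inl, if_neg hu] at h2
      simp only [Sum.inl.injEq, hκ1, hu, and_false, if_false] at h2
      rw [if_neg hu]
      simp only [hD1]
      linarith
  · refine hy ⟨fun i => f (κ i), fun i => ?_⟩
    refine Fin.cases ?_ (fun j => ?_) i
    · rw [if_pos rfl]
      simp only [hD2, Fin.cons_zero]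
      have e1 : (if (0 : Fin 9) = y then (1 : ℤ) else 0) = if y = 0 then 1 else 0 := by
        simp only [eq_comm]
      rw [e1]
      simp only [hD1] at c
      linarith
    · have h2 := hf (Sum.inr j)
      rw [fire_inr] at h2
      simp only [hκ2, reduceCtorEq, if_false] at h2
      have e1 : (if j.succ = y then (1 : ℤ) else 0) = if y = j.succ then 1 else 0 := by
        simp only [eq_comm]
      rw [e1, if_neg (Fin.succ_ne_zero j)]
      simp only [hD2, Fin.cons_succ]
      linarith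

/-- firing scripts which bring a chip from `8 v₀` to a given vertex -/
def ff : Fin 7 ⊕ Fin 8 → Fin 7 ⊕ Fin 8 → ℤ
  | Sum.inl y, v =>
    let t : List ℤ := (![[0, 2, 0, 0, 1, 0, 0], [0, 0, 0, 0, 0, 0, 0], [1, 3, 0, 0, 2, 0, 0],
      [1, 3, 0, 0, 2, 0, 0], [0, 1, 0, 0, 0, 0, 0], [2, 4, 1, 1, 3, 0, 1],
      [1, 3, 0, 0, 2, 0, 0]] : Fin 7 → List ℤ) y
    match v with
    | Sum.inl u => t.getD u.val 0
    | Sum.inr _ => t.getD 1 0
  | Sum.inr _, Sum.inl _ => 1
  | Sum.inr _, Sum.inr _ => 0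

theorem ff_ok : ∀ y v, 0 ≤ (if v = Sum.inl 1 then 8 else 0) - (if v = y then 1 else 0) +
    G.fire (ff y) v := by decide +kernel

/-- firing scripts for `9 v₀ - x - y` with `x, y` in the complete graph -/
def gg (i j : Fin 8) : Fin 7 ⊕ Fin 8 → ℤ
  | Sum.inl _ => 1
  | Sum.inr k => if i = j ∧ k = i then -1 else 0

theorem gg_ok : ∀ i j v, 0 ≤ (if v = Sum.inl 1 then 9 else 0) - (if v = Sum.inr i then 1 else 0) -
    (if v = Sum.inr j then 1 else 0) + G.fire (gg i j) v := by decide +kernel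

/-- vertex part of the divisor of degree four: one chip at the centre -/
def Bv : Fin 7 ⊕ Fin 8 → ℤ := fun v => if v = Sum.inl 0 then 1 else 0

/-- the three half chips -/
def Bm : Fin 15 ⊕ E9 → ℤ
  | Sum.inl e => if e = 3 ∨ e = 4 ∨ e = 5 then 1 else 0
  | Sum.inr _ => 0

/-- twice the value of the rational functions -/
def hh (i : Fin 3) : Fin 7 ⊕ Fin 8 → ℤ
  | Sum.inl u => (![[0, -1, 0, 0, -1, 0, 0], [0, 0, -1, 0, 0, -1, 0], [0, 0, 0, -1, 0, 0, -1]] i).getD
      u.val 0
  | Sum.inr _ => if i = 0 then -1 else 0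

/-- slopes on the first halves -/
def s1 (i : Fin 3) : Fin 15 ⊕ E9 → ℤ
  | Sum.inl e => (![[-1, 0, 0, 1, 0, 0], [0, -1, 0, 0, 1, 0], [0, 0, -1, 0, 0, 1]] i).getD e.val 0
  | Sum.inr _ => 0

/-- slopes on the second halves -/
def s2 (i : Fin 3) : Fin 15 ⊕ E9 → ℤ
  | Sum.inl e => (![[0, 0, 0, 0, 0, -1], [0, 0, 0, -1, 0, 0], [0, 0, 0, 0, -1, 0]] i).getD e.val 0
  | Sum.inr _ => 0

theorem hh_ok : ∀ i e, hh i (G.tgt e) = hh i (G.src e) + s1 i e + s2 i e := by decide +kernel

theorem hm_ok : ∀ i e, 0 ≤ Bm e + s2 i e - s1 i e := by decide +kernel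

/-- which function brings a chip to which vertex -/
def ix : Fin 7 → Fin 3 := ![0, 0, 1, 2, 0, 1, 2]

theorem hv_ok : ∀ y : Fin 7, y ≠ 0 → ∀ v, 0 ≤ (Bv v - if v = Sum.inl y then 1 else 0) +
    ∑ e, ((if G.src e = v then s1 (ix y) e else 0) +
      (if G.tgt e = v then - s2 (ix y) e else 0)) := by decide +kernel

/-- the divisor of degree four meets every vertex of the small graph -/
theorem win_B (y : Fin 7) : Win G (hd (fun v => Bv v - if v = Sum.inl y then 1 else 0) Bm) := by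
  by_cases hy : y = 0
  · subst hy
    refine win_of_nonneg ?_
    rintro (v | ⟨e, t⟩)
    · simp [hd, Bv]
    · simp only [hd]
      have : ∀ e, 0 ≤ Bm e := by decide
      split_ifs
      · exact this e
      · exact le_rfl
  · exact win_half _ _ (hh (ix y)) (s1 (ix y)) (s2 (ix y)) (hh_ok _) (hv_ok y hy) (hm_ok _)

/-- the second gonality of the metric graph is at most twelve -/
theorem mrank_two : G.MRankGe 2 (embH (fun v => Bv v + if v = Sum.inl 1 then 8 else 0) Bm) := by
  have hB := win_B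
  have hK : ∀ y, Win G (hd (fun v => (if v = Sum.inl 1 then 8 else 0) -
      (if v = y then 1 else 0)) (fun _ => 0)) := fun y => win_int _ (ff y) (ff_ok y)
  refine mrank_two_of _ _ ?_
  rintro (x | i) y
  · refine ((hB x).hd_add (hK y)).hd_congr (fun v => ?_) (fun e => by ring)
    ring
  · rcases y with y | j
    · refine ((hB y).hd_add (hK (Sum.inr i))).hd_congr (fun v => ?_) (fun e => by ring)
      ring
    · refine ((hB 1).hd_add (win_int _ (gg i j) (gg_ok i j))).hd_congr (fun v => ?_)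
        (fun e => by ring)
      split_ifs <;> ring

theorem rank_one : G.RankGe 1 (fun v => if v = Sum.inl 1 then 8 else 0) :=
  rankGe_one_of _ fun y => ⟨ff y, ff_ok y⟩

theorem mdgon_two_le : G.mdgon 2 ≤ 12 := by
  refine Nat.sInf_le ⟨_, ?_, mrank_two⟩
  rw [deg_embH]
  have h1 : ∑ v, (Bv v + if v = Sum.inl 1 then 8 else 0) = 9 := by decide +kernel
  have h2 : ∑ e, Bm e = 3 := by decide +kernel
  rw [h1, h2]
  norm_num

theorem sum_eight : ∑ v : Fin 7 ⊕ Fin 8, (if v = Sum.inl 1 then (8 : ℤ) else 0) = 8 := by decide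

theorem dgon_one : G.dgon 1 = 8 := by
  refine le_antisymm (Nat.sInf_le ⟨_, by rw [sum_eight]; norm_num, rank_one⟩) ?_
  refine le_csInf ⟨8, ⟨_, by rw [sum_eight]; norm_num, rank_one⟩⟩ ?_
  rintro n ⟨D, hn, hD⟩
  have := le_deg_of_rank hasK (by norm_num) _ (mrank_of_rank D 1 hD)
  rw [deg_emb, hn] at this
  push_cast at this
  have : (8 : ℤ) ≤ n := by linarith
  exact_mod_cast this

theorem mdgon_one : G.mdgon 1 = 8 := by
  have hmem : G.MRankGe 1 (emb fun v => if v = Sum.inl 1 then 8 else 0) :=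
    mrank_of_rank _ 1 rank_one
  refine le_antisymm (Nat.sInf_le ⟨_, by rw [deg_emb, sum_eight]; norm_num, hmem⟩) ?_
  refine le_csInf ⟨8, ⟨_, by rw [deg_emb, sum_eight]; norm_num, hmem⟩⟩ ?_
  rintro n ⟨D, hn, hD⟩
  have := le_deg_of_rank hasK (by norm_num) _ hD
  rw [hn] at this
  push_cast at this
  have : (8 : ℤ) ≤ n := by linarith
  exact_mod_cast this

theorem lt_dgon_two : 13 ≤ G.dgon 2 := by
  have h2 : G.RankGe 2 (fun _ => 2) := by
    intro A hA hsum
    refine ⟨fun _ => 0, fun v => ?_⟩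
    have h1 : G.fire (fun _ => 0) v = 0 := by simp [MGraph.fire]
    have h3 : A v ≤ ∑ w, A w := Finset.single_le_sum (fun w _ => hA w) (Finset.mem_univ v)
    rw [hsum] at h3
    push_cast at h3
    rw [h1]
    linarith
  refine le_csInf ⟨30, ⟨_, by simp, h2⟩⟩ ?_
  rintro n ⟨D, hn, hD⟩
  by_contra hc
  push Not at hc
  obtain ⟨x, y, hxy⟩ := bad2 D (by rw [hn]; exact_mod_cast Nat.lt_succ_iff.1 hc)
  obtain ⟨f, hf⟩ := hD (fun v => (if v = x then 1 else 0) + (if v = y then 1 else 0))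
    (fun v => by split_ifs <;> norm_num) (by
      rw [Finset.sum_add_distrib]
      simp)
  exact hxy ⟨f, fun v => by linarith [hf v]⟩

theorem connected : G.Connected := by
  set R : Fin 7 ⊕ Fin 8 → Fin 7 ⊕ Fin 8 → Prop := fun a b =>
    ∃ e, (G.src e = a ∧ G.tgt e = b) ∨ (G.src e = b ∧ G.tgt e = a) with hR
  have hsymm : Symmetric R := fun a b ⟨e, he⟩ => ⟨e, he.symm⟩
  have r1 : Relation.ReflTransGen R (Sum.inl 1) (Sum.inl 1) := Relation.ReflTransGen.refl
  have r0 : Relation.ReflTransGen R (Sum.inl 1) (Sum.inl 0) :=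
    r1.tail ⟨Sum.inl 0, Or.inr ⟨rfl, rfl⟩⟩
  have r2 : Relation.ReflTransGen R (Sum.inl 1) (Sum.inl 2) :=
    r0.tail ⟨Sum.inl 1, Or.inl ⟨rfl, rfl⟩⟩
  have r3 : Relation.ReflTransGen R (Sum.inl 1) (Sum.inl 3) :=
    r0.tail ⟨Sum.inl 2, Or.inl ⟨rfl, rfl⟩⟩
  have r4 : Relation.ReflTransGen R (Sum.inl 1) (Sum.inl 4) :=
    r1.tail ⟨Sum.inl 6, Or.inl ⟨rfl, rfl⟩⟩
  have r5 : Relation.ReflTransGen R (Sum.inl 1) (Sum.inl 5) :=
    r2.tail ⟨Sum.inl 9, Or.inl ⟨rfl, rfl⟩⟩
  have r6 : Relation.ReflTransGen R (Sum.inl 1) (Sum.inl 6) :=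
    r3.tail ⟨Sum.inl 12, Or.inl ⟨rfl, rfl⟩⟩
  have hall : ∀ x, Relation.ReflTransGen R (Sum.inl 1) x := by
    rintro (u | j)
    · fin_cases u
      · exact r0
      · exact r1
      · exact r2
      · exact r3
      · exact r4
      · exact r5
      · exact r6
    · exact r1.tail ⟨Sum.inr ⟨(0, j.succ), Fin.succ_pos j⟩, Or.inl ⟨rfl, rfl⟩⟩
  have hrev : ∀ x, Relation.ReflTransGen R x (Sum.inl 1) := by
    intro x
    induction hall x with
    | refl => exact Relation.ReflTransGen.refl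
    | tail _ h2 ih => exact Relation.ReflTransGen.head (hsymm h2) ih
  intro x y
  exact (hrev x).trans (hall y)

/-- the small graph has gonality at least five -/
theorem five_le : 5 ≤ G0.dgon 1 := by
  have h1 : G0.RankGe 1 (fun _ => 1) := by
    intro A hA hsum
    refine ⟨fun _ => 0, fun v => ?_⟩
    have h1 : G0.fire (fun _ => 0) v = 0 := by simp [MGraph.fire]
    have h3 : A v ≤ ∑ w, A w := Finset.single_le_sum (fun w _ => hA w) (Finset.mem_univ v)
    rw [hsum] at h3
    push_cast at h3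
    rw [h1]
    linarith
  refine le_csInf ⟨7, ⟨_, by simp, h1⟩⟩ ?_
  rintro n ⟨D, hn, hD⟩
  by_contra hc
  push Not at hc
  obtain ⟨x, hx⟩ := Small.bad D (by rw [hn]; exact_mod_cast Nat.lt_succ_iff.1 hc)
  obtain ⟨f, hf⟩ := hD (fun v => if v = x then 1 else 0)
    (fun v => by split_ifs <;> norm_num) (by simp)
  exact hx ⟨f, hf⟩

/-- half chips on the small graph -/
def Bm0 : Fin 15 → ℤ := fun e => Bm (Sum.inl e)

theorem hh0_ok : ∀ i e, hh i (Sum.inl (T0 e)) = hh i (Sum.inl (S0 e)) + s1 i (Sum.inl e) +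
    s2 i (Sum.inl e) := by decide +kernel

theorem hv0_ok : ∀ y : Fin 7, y ≠ 0 → ∀ v : Fin 7,
    0 ≤ ((if v = 0 then 1 else 0) - if v = y then 1 else 0) +
    ∑ e : Fin 15, ((if S0 e = v then s1 (ix y) (Sum.inl e) else 0) +
      (if T0 e = v then - s2 (ix y) (Sum.inl e) else 0)) := by decide +kernel

/-- the metric graph of the small graph has gonality at most four -/
theorem le_four : G0.mdgon 1 ≤ 4 := by
  have hr : G0.MRankGe 1 (embH (fun v => if v = 0 then 1 else 0) Bm0) := by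
    refine mrank_one_of _ _ fun y => ?_
    by_cases hy : y = 0
    · subst hy
      refine win_of_nonneg ?_
      rintro (v | ⟨e, t⟩)
      · simp [hd]
      · simp only [hd]
        have : ∀ e, 0 ≤ Bm0 e := by decide
        split_ifs
        · exact this e
        · exact le_rfl
    · exact win_half (G := G0) _ _ (fun v => hh (ix y) (Sum.inl v)) (fun e => s1 (ix y) (Sum.inl e))
        (fun e => s2 (ix y) (Sum.inl e)) (hh0_ok _) (hv0_ok y hy) (fun e => hm_ok _ _)
  refine Nat.sInf_le ⟨_, ?_, hr⟩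
  rw [deg_embH]
  have h2 : ∑ e, Bm0 e = 3 := by decide +kernel
  rw [h2]
  simp

end Example

end Pool.Agent.Q254.Gonal
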