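import Pool.Agent.Q254.Gonal.Rank

/-!
# A lower bound for the gonality of a metric graph which contains a complete graph
-/

set_option autoImplicit false

namespace Pool.Agent.Q254.Gonal

open Finset

theorem PL.hit {φ : ℝ → ℝ} {R L : ℝ → ℤ} (h : PL φ R L) {c : ℝ} (h0 : c < φ 0) (h1 : φ 1 < c) :
    ∃ t, 0 < t ∧ t < 1 ∧ φ t = c ∧ 0 < L t := by
  set A : Set ℝ := {t | 0 ≤ t ∧ t ≤ 1 ∧ φ t ≤ c} with hA
  have h1A : (1 : ℝ) ∈ A := ⟨zero_le_one, le_rfl, h1.le⟩
  have hbdd : BddBelow A := ⟨0, fun t ht => ht.1⟩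
  set s := sInf A with hs
  have hs0 : 0 ≤ s := le_csInf ⟨1, h1A⟩ fun t ht => ht.1
  have hs1 : s ≤ 1 := csInf_le hbdd h1A
  have hbefore : ∀ t, 0 ≤ t → t < s → c < φ t := by
    intro t ht0 hts
    by_contra hc
    have : s ≤ t := csInf_le hbdd ⟨ht0, by linarith, not_lt.1 hc⟩
    linarith
  have hsc : φ s ≤ c := by
    by_contra hc
    push Not at hc
    have hlt : s < 1 := lt_of_le_of_ne hs1 (fun e => by rw [e] at hc; linarith)
    obtain ⟨ε, hε, H⟩ := h.right s hs0 hlt
    obtain ⟨η, hη, K⟩ := PL.pos_near (sub_pos.2 hc) ((R s : ℝ))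
    have hη2 : 0 < min ε (η / 2) := lt_min hε (by linarith)
    have m1 := min_le_left ε (η / 2)
    have m2 := min_le_right ε (η / 2)
    obtain ⟨t, htA, ht⟩ := exists_lt_of_csInf_lt ⟨1, h1A⟩
      (show sInf A < s + min ε (η / 2) by linarith)
    have hst : s ≤ t := csInf_le hbdd htA
    have e1 := H t hst (by linarith)
    have e2 := K (2 * (t - s)) (by linarith) (by linarith)
    have e3 := htA.2.2
    have e4 := K 0 le_rfl hη.le
    have : 0 < φ s - c := sub_pos.2 hc
    nlinarith
  have hspos : 0 < s := by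
    rcases hs0.eq_or_lt with e | e
    · rw [← e] at hsc
      linarith
    · exact e
  obtain ⟨ε, hε, H⟩ := h.left s hspos hs1
  set d := min ε s with hd
  have hd0 : 0 < d := lt_min hε hspos
  have hd1 : d ≤ ε := min_le_left _ _
  have hd2 : d ≤ s := min_le_right _ _
  have key : ∀ x, 0 < x → x ≤ d → c < φ s + (L s : ℝ) * x := by
    intro x hx hxd
    have := hbefore (s - x) (by linarith) (by linarith)
    rw [H (s - x) (by linarith) (by linarith)] at this
    have e : s - (s - x) = x := by ring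
    rwa [e] at this
  have hL : 0 < (L s : ℝ) := by
    have := key d hd0 le_rfl
    by_contra hc
    push Not at hc
    nlinarith
  have hsc' : φ s = c := by
    by_contra hne
    have hlt : φ s < c := lt_of_le_of_ne hsc hne
    set x := min d ((c - φ s) / L s) with hx
    have hx0 : 0 < x := lt_min hd0 (div_pos (by linarith) hL)
    have hx1 : x ≤ (c - φ s) / L s := min_le_right _ _
    have := key x hx0 (min_le_left _ _)
    rw [le_div_iff₀ hL] at hx1
    linarith
  refine ⟨s, hspos, lt_of_le_of_ne hs1 fun e => ?_, hsc', by exact_mod_cast hL⟩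
  rw [e] at hsc'
  linarith

variable {V E : Type} [Fintype V] [Fintype E] [DecidableEq V] {G : MGraph V E}

omit [Fintype V] [Fintype E] [DecidableEq V] in
theorem card_le_deg (D : Pt V E →₀ ℤ) (hD : ∀ x, 0 ≤ D x) (S : Finset (Pt V E))
    (hS : ∀ x ∈ S, 1 ≤ D x) : (S.card : ℤ) ≤ deg D := by
  classical
  unfold deg Finsupp.sum
  have hsub : S ⊆ D.support := fun x hx => by
    rw [Finsupp.mem_support_iff]
    have := hS x hx
    omega
  calc (S.card : ℤ) = ∑ _x ∈ S, (1 : ℤ) := by simp
    _ ≤ ∑ x ∈ S, D x := Finset.sum_le_sum hS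
    _ ≤ ∑ x ∈ D.support, D x := Finset.sum_le_sum_of_subset_of_nonneg hsub fun x _ _ => hD x

/-- `G` contains a complete graph on the vertices `κ 0, …, κ (n - 1)` -/
structure HasK (G : MGraph V E) (n : ℕ) where
  /-- vertices -/
  κ : Fin n → V
  /-- edges -/
  ι : Fin n → Fin n → E
  inj : Function.Injective κ
  src_eq : ∀ i j, i < j → G.src (ι i j) = κ i
  tgt_eq : ∀ i j, i < j → G.tgt (ι i j) = κ j

variable {n : ℕ}

/-- if the degree is less than `n - 1` then the values on the complete graph cannot change -/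
theorem const_on_K (K : HasK G n) (D : Pt V E →₀ ℤ) (hD : ∀ x, 0 ≤ D x)
    (hdeg : deg D + 1 < (n : ℤ)) (F : RatFun G) (hF : ∀ x, 0 ≤ D x + F.div x) (i j : Fin n) :
    F.onV (K.κ i) = F.onV (K.κ j) := by
  classical
  by_contra hne
  haveI : Nonempty (Fin n) := ⟨i⟩
  obtain ⟨a, ha⟩ := Finite.exists_max (fun i => F.onV (K.κ i))
  set S : Finset (Fin n) := Finset.univ.filter fun i => F.onV (K.κ i) = F.onV (K.κ a) with hS
  have haS : a ∈ S := by simp [hS]
  have hTne : Sᶜ.Nonempty := by
    by_contra hc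
    rw [Finset.not_nonempty_iff_eq_empty, Finset.compl_eq_empty_iff] at hc
    have hi : i ∈ S := hc ▸ Finset.mem_univ i
    have hj : j ∈ S := hc ▸ Finset.mem_univ j
    rw [hS, Finset.mem_filter] at hi hj
    exact hne (hi.2.trans hj.2.symm)
  obtain ⟨b, hb, hbmax⟩ := Finset.exists_max_image Sᶜ (fun i => F.onV (K.κ i)) hTne
  have hblt : F.onV (K.κ b) < F.onV (K.κ a) := by
    refine lt_of_le_of_ne (ha b) fun e => ?_
    rw [Finset.mem_compl] at hb
    exact hb (by simp [hS, e])
  set c := (F.onV (K.κ a) + F.onV (K.κ b)) / 2 with hc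
  set Fc := F.sup (RatFun.const G c) with hFc
  have hFc0 : ∀ x, 0 ≤ D x + Fc.div x :=
    RatFun.sup_nonneg F _ D hF fun x => by rw [RatFun.div_const]; linarith [hD x]
  obtain ⟨P, hP, hP0⟩ := Fc.exists_finsupp
  have hDP : ∀ x, 0 ≤ (D + P) x := fun x => by
    rw [Finsupp.add_apply, hP]
    exact hFc0 x
  have hhigh : ∀ i ∈ S, c < F.onV (K.κ i) := by
    intro i hi
    rw [hS, Finset.mem_filter] at hi
    rw [hi.2]
    linarith
  have hlow : ∀ i ∈ Sᶜ, F.onV (K.κ i) < c := by
    intro i hi
    have : F.onV (K.κ i) ≤ F.onV (K.κ b) := hbmax i hi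
    linarith
  -- a chip on every edge of the cut
  have hchip : ∀ p : Fin n × Fin n, p ∈ S ×ˢ Sᶜ → ∃ t : Set.Ioo (0 : ℝ) 1,
      1 ≤ (D + P) (Sum.inr (K.ι (min p.1 p.2) (max p.1 p.2), t)) := by
    rintro ⟨u, w⟩ hp
    rw [Finset.mem_product] at hp
    have hu := hhigh u hp.1
    have hw := hlow w hp.2
    simp only at hu hw ⊢
    have hne' : u ≠ w := fun e => by rw [e] at hu; linarith
    rcases lt_or_gt_of_ne hne' with huw | huw
    · rw [min_eq_left huw.le, max_eq_right huw.le]
      obtain ⟨t, ht0, ht1, htc, hL⟩ := (F.pl (K.ι u w)).hit (c := c)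
        (by rw [F.at_src, K.src_eq _ _ huw]; exact hu)
        (by rw [F.at_tgt, K.tgt_eq _ _ huw]; exact hw)
      refine ⟨⟨t, ht0, ht1⟩, ?_⟩
      rw [Finsupp.add_apply, hP]
      have e1 : Fc.div (Sum.inr (K.ι u w, ⟨t, ht0, ht1⟩)) =
          max (F.right (K.ι u w) t) 0 + max (F.left (K.ι u w) t) 0 := by
        simp only [hFc, RatFun.div, RatFun.sup, RatFun.const, htc, PL.ms_eq]
      rw [e1]
      have m1 := le_max_right (F.right (K.ι u w) t) 0
      have m2 := le_max_left (F.left (K.ι u w) t) 0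
      have m3 := hD (Sum.inr (K.ι u w, ⟨t, ht0, ht1⟩))
      linarith
    · rw [min_eq_right huw.le, max_eq_left huw.le]
      obtain ⟨t, ht0, ht1, htc, hL⟩ := (F.pl (K.ι w u)).rev.hit (c := c)
        (by rw [sub_zero, F.at_tgt, K.tgt_eq _ _ huw]; exact hu)
        (by rw [sub_self, F.at_src, K.src_eq _ _ huw]; exact hw)
      refine ⟨⟨1 - t, by linarith, by linarith⟩, ?_⟩
      rw [Finsupp.add_apply, hP]
      have e1 : Fc.div (Sum.inr (K.ι w u, ⟨1 - t, by linarith, by linarith⟩)) =
          max (F.right (K.ι w u) (1 - t)) 0 + max (F.left (K.ι w u) (1 - t)) 0 := by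
        simp only [hFc, RatFun.div, RatFun.sup, RatFun.const, htc, PL.ms_eq]
      rw [e1]
      have m1 := le_max_left (F.right (K.ι w u) (1 - t)) 0
      have m2 := le_max_right (F.left (K.ι w u) (1 - t)) 0
      have m3 := hD (Sum.inr (K.ι w u, ⟨1 - t, by linarith, by linarith⟩))
      linarith
  haveI : Nonempty (Set.Ioo (0 : ℝ) 1) := ⟨⟨1 / 2, by norm_num, by norm_num⟩⟩
  choose! T hT using hchip
  have hinj : Set.InjOn (fun p : Fin n × Fin n =>
      (Sum.inr (K.ι (min p.1 p.2) (max p.1 p.2), T p) : Pt V E)) (S ×ˢ Sᶜ : Finset _) := by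
    rintro ⟨u, w⟩ hp ⟨u', w'⟩ hp' heq
    rw [Finset.mem_coe, Finset.mem_product] at hp hp'
    simp only at hp hp'
    rw [Finset.mem_compl] at hp hp'
    have hne1 : u ≠ w := fun e => hp.2 (e ▸ hp.1)
    have hne2 : u' ≠ w' := fun e => hp'.2 (e ▸ hp'.1)
    have hlt1 : min u w < max u w := min_lt_max.2 hne1
    have hlt2 : min u' w' < max u' w' := min_lt_max.2 hne2
    simp only [Sum.inr.injEq, Prod.mk.injEq] at heq
    have e1 : min u w = min u' w' := by
      have h1 := K.src_eq _ _ hlt1
      rw [heq.1, K.src_eq _ _ hlt2] at h1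
      exact (K.inj h1).symm
    have e2 : max u w = max u' w' := by
      have h1 := K.tgt_eq _ _ hlt1
      rw [heq.1, K.tgt_eq _ _ hlt2] at h1
      exact (K.inj h1).symm
    have hcase : (u = u' ∧ w = w') ∨ (u = w' ∧ w = u') := by
      rcases le_total u w with c1 | c1 <;> rcases le_total u' w' with c2 | c2
      · rw [min_eq_left c1, min_eq_left c2] at e1
        rw [max_eq_right c1, max_eq_right c2] at e2
        exact Or.inl ⟨e1, e2⟩
      · rw [min_eq_left c1, min_eq_right c2] at e1
        rw [max_eq_right c1, max_eq_left c2] at e2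
        exact Or.inr ⟨e1, e2⟩
      · rw [min_eq_right c1, min_eq_left c2] at e1
        rw [max_eq_left c1, max_eq_right c2] at e2
        exact Or.inr ⟨e2, e1⟩
      · rw [min_eq_right c1, min_eq_right c2] at e1
        rw [max_eq_left c1, max_eq_left c2] at e2
        exact Or.inl ⟨e2, e1⟩
    rcases hcase with h | h
    · rw [h.1, h.2]
    · exact absurd hp.1 (by rw [h.1]; exact hp'.2)
  have hcard := card_le_deg (D + P) hDP ((S ×ˢ Sᶜ).image fun p : Fin n × Fin n =>
      (Sum.inr (K.ι (min p.1 p.2) (max p.1 p.2), T p) : Pt V E)) (by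
    intro x hx
    rw [Finset.mem_image] at hx
    obtain ⟨p, hp, rfl⟩ := hx
    exact hT p hp)
  rw [Finset.card_image_of_injOn hinj, Finset.card_product, deg_add, hP0, add_zero] at hcard
  have h1 : 1 ≤ S.card := Finset.card_pos.2 ⟨a, haS⟩
  have h2 : 1 ≤ Sᶜ.card := Finset.card_pos.2 hTne
  have h3 : S.card + Sᶜ.card = n := by
    rw [Finset.card_add_card_compl, Fintype.card_fin]
  have h4 : (S.card : ℤ) * Sᶜ.card ≤ deg D := by exact_mod_cast hcard
  have h5 : (S.card : ℤ) + Sᶜ.card = n := by exact_mod_cast h3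
  have h6 : (1 : ℤ) ≤ S.card := by exact_mod_cast h1
  have h7 : (1 : ℤ) ≤ Sᶜ.card := by exact_mod_cast h2
  nlinarith

/-- a divisor of degree less than `n - 1` does not have rank one on a complete graph -/
theorem exists_bad (K : HasK G n) (D : Pt V E →₀ ℤ) (hD : ∀ x, 0 ≤ D x)
    (hdeg : deg D + 1 < (n : ℤ)) : ∃ i, ¬ Win G (fun x => D x - one (Sum.inl (K.κ i)) x) := by
  classical
  by_contra hcon
  push Not at hcon
  have key : ∀ T : Finset (Fin n), ∃ D' : Pt V E →₀ ℤ, (∀ x, 0 ≤ D' x) ∧ deg D' = deg D ∧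
      (∃ F : RatFun G, ∀ x, D' x = D x + F.div x) ∧ ∀ i ∈ T, 1 ≤ D' (Sum.inl (K.κ i)) := by
    intro T
    induction T using Finset.induction_on with
    | empty =>
      exact ⟨D, hD, rfl, ⟨RatFun.const G 0, fun x => by rw [RatFun.div_const, add_zero]⟩, by simp⟩
    | insert i T hi ih =>
      obtain ⟨D', hD', hdD', ⟨F, hF⟩, hT⟩ := ih
      obtain ⟨Fi, hFi⟩ := hcon i
      replace hFi : ∀ x, 0 ≤ D x - one (Sum.inl (K.κ i)) x + Fi.div x := hFi
      set F' := Fi.add F.neg with hF'
      have hdivF' : ∀ x, F'.div x = Fi.div x - F.div x := fun x => by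
        rw [hF', RatFun.div_add, RatFun.div_neg]
        ring
      have h1 : ∀ x, one (Sum.inl (K.κ i)) x ≤ D' x + F'.div x := fun x => by
        rw [hF, hdivF']
        linarith [hFi x]
      have h2 : ∀ x, 0 ≤ D' x + F'.div x := fun x =>
        (one_nonneg (Sum.inl (K.κ i)) x).trans (h1 x)
      have hc := const_on_K K D' hD' (by rw [hdD']; exact hdeg) F' h2
      set F'' := F'.add (RatFun.const G (- F'.onV (K.κ i))) with hF''
      have hdivF'' : ∀ x, F''.div x = F'.div x := fun x => by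
        rw [hF'', RatFun.div_add, RatFun.div_const, add_zero]
      have hzero : ∀ j, F''.onV (K.κ j) = 0 := fun j => by
        simp only [hF'', RatFun.add, RatFun.const]
        have := hc i j
        simp only [hF', RatFun.add] at this ⊢
        linarith
      set H := F''.sup (RatFun.const G 0) with hH
      obtain ⟨P, hP, hP0⟩ := H.exists_finsupp
      have hge : ∀ x, 0 ≤ D' x + H.div x :=
        RatFun.sup_nonneg F'' _ D' (fun x => by rw [hdivF'']; exact h2 x)
          (fun x => by rw [RatFun.div_const]; linarith [hD' x])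
      refine ⟨D' + P, fun x => ?_, ?_, ⟨F.add H, fun x => ?_⟩, fun j hj => ?_⟩
      · rw [Finsupp.add_apply, hP]
        exact hge x
      · rw [deg_add, hP0, add_zero, hdD']
      · rw [Finsupp.add_apply, hP, RatFun.div_add, hF]
        ring
      · rw [Finsupp.add_apply, hP]
        rcases Finset.mem_insert.1 hj with rfl | hj
        · have e1 := RatFun.div_le_sup_left F'' (RatFun.const G 0) (Sum.inl (K.κ j))
            (by simp only [RatFun.at', RatFun.const, hzero, le_refl])
          rw [hdivF''] at e1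
          have e2 := h1 (Sum.inl (K.κ j))
          rw [one_self] at e2
          linarith
        · have e1 := RatFun.div_le_sup_right F'' (RatFun.const G 0) (Sum.inl (K.κ j))
            (by simp only [RatFun.at', RatFun.const, hzero, le_refl])
          rw [RatFun.div_const] at e1
          have e2 := hT j hj
          linarith
  obtain ⟨D', hD', hdD', -, hT⟩ := key Finset.univ
  have hcard := card_le_deg D' hD' (Finset.univ.image fun i => (Sum.inl (K.κ i) : Pt V E)) (by
    intro x hx
    rw [Finset.mem_image] at hx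
    obtain ⟨i, -, rfl⟩ := hx
    exact hT i (Finset.mem_univ i))
  have hinj : Function.Injective fun i => (Sum.inl (K.κ i) : Pt V E) :=
    fun i j h => K.inj (Sum.inl_injective h)
  rw [Finset.card_image_of_injective _ hinj, Finset.card_univ, Fintype.card_fin, hdD'] at hcard
  linarith

/-- the gonality of a metric graph which contains a complete graph on `n` vertices -/
theorem le_deg_of_rank (K : HasK G n) (hn : 0 < n) (D : Pt V E →₀ ℤ) (h : G.MRankGe 1 D) :
    (n : ℤ) ≤ deg D + 1 := by
  classical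
  by_contra hcon
  push Not at hcon
  have hwin : ∀ v : V, Win G (fun x => D x - one (Sum.inl v) x) := by
    intro v
    obtain ⟨F, hF⟩ := h (Finsupp.single (Sum.inl v) 1) (fun x => by
      rw [Finsupp.single_apply]
      split_ifs <;> norm_num) (by rw [deg_single]; norm_num)
    refine ⟨F, fun x => ?_⟩
    change 0 ≤ D x - one (Sum.inl v) x + F.div x
    have := hF x
    rw [Finsupp.single_apply] at this
    by_cases hx : x = Sum.inl v
    · rw [hx] at this ⊢
      rw [if_pos rfl] at this
      rw [one_self]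
      exact this
    · rw [if_neg (Ne.symm hx)] at this
      rw [one_ne hx]
      exact this
  obtain ⟨F, hF⟩ := hwin (K.κ ⟨0, hn⟩)
  replace hF : ∀ x, 0 ≤ D x - one (Sum.inl (K.κ ⟨0, hn⟩)) x + F.div x := hF
  obtain ⟨P, hP, hP0⟩ := F.exists_finsupp
  have hDP : ∀ x, 0 ≤ (D + P) x := fun x => by
    rw [Finsupp.add_apply, hP]
    linarith [hF x, one_nonneg (Sum.inl (K.κ ⟨0, hn⟩)) x]
  obtain ⟨i, hi⟩ := exists_bad K (D + P) hDP (by rw [deg_add, hP0, add_zero]; exact hcon)
  apply hi
  obtain ⟨F', hF'⟩ := hwin (K.κ i)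
  replace hF' : ∀ x, 0 ≤ D x - one (Sum.inl (K.κ i)) x + F'.div x := hF'
  refine ⟨F'.add F.neg, fun x => ?_⟩
  rw [RatFun.div_add, RatFun.div_neg]
  simp only [Finsupp.add_apply, hP]
  linarith [hF' x]

end Pool.Agent.Q254.Gonal
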