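import Pool.Agent.Q254.Gonal.PL

/-!
# Divisors on a finite loopless multigraph and on its metric graph with unit edge lengths
-/

set_option autoImplicit false

namespace Pool.Agent.Q254.Gonal

open Finset

/-- A loopless multigraph with vertex type `V` and edge type `E`: the edge `e` joins the two distinct
vertices `src e` and `tgt e` (listed in an arbitrary order); parallel edges are allowed. -/
structure MGraph (V E : Type) where
  /-- first end -/
  src : E → V
  /-- second end -/
  tgt : E → V
  /-- no loops -/
  ne : ∀ e, src e ≠ tgt e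

variable {V E : Type}

namespace MGraph

/-- Any two vertices are joined by a walk. -/
def Connected (G : MGraph V E) : Prop :=
  ∀ x y : V, Relation.ReflTransGen
    (fun a b => ∃ e, (G.src e = a ∧ G.tgt e = b) ∨ (G.src e = b ∧ G.tgt e = a)) x y

section Discrete

variable [Fintype E] [DecidableEq V]

/-- If every vertex `w` is fired `f w` times, the vertex `v` receives in total
`∑ (f w - f v)` chips, the sum being over all edges `v w` at `v`. -/
def fire (G : MGraph V E) (f : V → ℤ) (v : V) : ℤ :=
  ∑ e : E, ((if G.src e = v then f (G.tgt e) - f v else 0) +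
    (if G.tgt e = v then f (G.src e) - f v else 0))

/-- The divisor `D` on the graph has rank at least `r`: for every effective divisor `A` of degree `r`
the divisor `D - A` is equivalent to an effective divisor. -/
def RankGe [Fintype V] (G : MGraph V E) (r : ℕ) (D : V → ℤ) : Prop :=
  ∀ A : V → ℤ, (∀ v, 0 ≤ A v) → ∑ v, A v = (r : ℤ) →
    ∃ f : V → ℤ, ∀ v, 0 ≤ D v - A v + G.fire f v

/-- The `r`-th divisorial gonality of the graph. -/
noncomputable def dgon [Fintype V] (G : MGraph V E) (r : ℕ) : ℕ :=
  sInf {n : ℕ | ∃ D : V → ℤ, ∑ v, D v = (n : ℤ) ∧ G.RankGe r D}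

end Discrete

end MGraph

/-- The points of the metric graph: the vertices, and for every edge `e` the points in the interior
of `e`, given by their distance `t` from `src e`, where `0 < t < 1`. -/
abbrev Pt (V E : Type) := V ⊕ (E × Set.Ioo (0 : ℝ) 1)

/-- A rational function on the metric graph of `G` with unit edge lengths: a function given on the
vertices by `onV` and on the edge `e` (as a function of the distance from `src e`) by `onE e`, which
is continuous and piecewise linear with integer slopes.  The integers `right e t` and `left e t` are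
the outgoing slopes at the point of `e` at distance `t` from `src e`, in the direction of `tgt e` and
of `src e`. -/
structure RatFun (G : MGraph V E) where
  /-- values at the vertices -/
  onV : V → ℝ
  /-- values on the edges -/
  onE : E → ℝ → ℝ
  /-- outgoing slopes in the direction of `tgt` -/
  right : E → ℝ → ℤ
  /-- outgoing slopes in the direction of `src` -/
  left : E → ℝ → ℤ
  at_src : ∀ e, onE e 0 = onV (G.src e)
  at_tgt : ∀ e, onE e 1 = onV (G.tgt e)
  pl : ∀ e, PL (onE e) (right e) (left e)

/-- The divisor of a rational function: the sum of the outgoing slopes in all directions. -/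
def RatFun.div [Fintype E] [DecidableEq V] {G : MGraph V E} (F : RatFun G) : Pt V E → ℤ
  | Sum.inl v => ∑ e : E, ((if G.src e = v then F.right e 0 else 0) +
      (if G.tgt e = v then F.left e 1 else 0))
  | Sum.inr (e, t) => F.right e t + F.left e t

/-- The degree of a divisor on the metric graph. -/
def deg (D : Pt V E →₀ ℤ) : ℤ := D.sum fun _ n => n

namespace MGraph

variable [Fintype E] [DecidableEq V]

/-- The divisor `D` on the metric graph of `G` has rank at least `r`: for every effective divisor `A`
of degree `r`, supported anywhere on the metric graph, `D - A` is equivalent to an effective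
divisor. -/
def MRankGe (G : MGraph V E) (r : ℕ) (D : Pt V E →₀ ℤ) : Prop :=
  ∀ A : Pt V E →₀ ℤ, (∀ x, 0 ≤ A x) → deg A = (r : ℤ) →
    ∃ F : RatFun G, ∀ x, 0 ≤ D x - A x + F.div x

/-- The `r`-th divisorial gonality of the metric graph of `G`. -/
noncomputable def mdgon (G : MGraph V E) (r : ℕ) : ℕ :=
  sInf {n : ℕ | ∃ D : Pt V E →₀ ℤ, deg D = (n : ℤ) ∧ G.MRankGe r D}

end MGraph

namespace RatFun

variable {G : MGraph V E}

/-- value at a point -/
def at' (F : RatFun G) : Pt V E → ℝ
  | Sum.inl v => F.onV v
  | Sum.inr (e, t) => F.onE e t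

/-- constant function -/
def const (G : MGraph V E) (c : ℝ) : RatFun G where
  onV _ := c
  onE _ _ := c
  right _ _ := 0
  left _ _ := 0
  at_src _ := rfl
  at_tgt _ := rfl
  pl _ := PL.const c

/-- sum -/
def add (F F' : RatFun G) : RatFun G where
  onV v := F.onV v + F'.onV v
  onE e t := F.onE e t + F'.onE e t
  right e t := F.right e t + F'.right e t
  left e t := F.left e t + F'.left e t
  at_src e := by rw [F.at_src, F'.at_src]
  at_tgt e := by rw [F.at_tgt, F'.at_tgt]
  pl e := (F.pl e).add (F'.pl e)

/-- negation -/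
def neg (F : RatFun G) : RatFun G where
  onV v := - F.onV v
  onE e t := - F.onE e t
  right e t := - F.right e t
  left e t := - F.left e t
  at_src e := by rw [F.at_src]
  at_tgt e := by rw [F.at_tgt]
  pl e := (F.pl e).neg

/-- maximum -/
noncomputable def sup (F F' : RatFun G) : RatFun G where
  onV v := max (F.onV v) (F'.onV v)
  onE e t := max (F.onE e t) (F'.onE e t)
  right e t := PL.ms (F.onE e t) (F'.onE e t) (F.right e t) (F'.right e t)
  left e t := PL.ms (F.onE e t) (F'.onE e t) (F.left e t) (F'.left e t)
  at_src e := by rw [F.at_src, F'.at_src]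
  at_tgt e := by rw [F.at_tgt, F'.at_tgt]
  pl e := (F.pl e).sup (F'.pl e)

/-- function linear on each half of every edge -/
noncomputable def knot (G : MGraph V E) (f : V → ℝ) (s₁ s₂ : E → ℤ)
    (h : ∀ e, f (G.tgt e) = f (G.src e) + ((s₁ e : ℝ) + s₂ e) / 2) : RatFun G where
  onV := f
  onE e t := if t ≤ 1 / 2 then f (G.src e) + s₁ e * t
    else f (G.src e) + s₁ e / 2 + s₂ e * (t - 1 / 2)
  right e t := if t < 1 / 2 then s₁ e else s₂ e
  left e t := if t ≤ 1 / 2 then - s₁ e else - s₂ e
  at_src e := by simp
  at_tgt e := by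
    rw [if_neg (by norm_num), h e]
    ring
  pl e := PL.knot _ _ _

variable [Fintype E] [DecidableEq V]

theorem div_const (c : ℝ) (x : Pt V E) : (const G c).div x = 0 := by
  rcases x with v | ⟨e, t⟩
  · simp [div, const]
  · simp [div, const]

theorem div_add (F F' : RatFun G) (x : Pt V E) : (F.add F').div x = F.div x + F'.div x := by
  rcases x with v | ⟨e, t⟩
  · simp only [div, add, ← Finset.sum_add_distrib]
    refine Finset.sum_congr rfl fun e _ => ?_
    split_ifs <;> ring
  · simp only [div, add]
    ring

theorem div_neg (F : RatFun G) (x : Pt V E) : F.neg.div x = - F.div x := by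
  rcases x with v | ⟨e, t⟩
  · simp only [div, neg, ← Finset.sum_neg_distrib]
    refine Finset.sum_congr rfl fun e _ => ?_
    split_ifs <;> ring
  · simp only [div, neg]
    ring

theorem div_le_sup_left (F F' : RatFun G) (x : Pt V E) (h : F'.at' x ≤ F.at' x) :
    F.div x ≤ (F.sup F').div x := by
  rcases x with v | ⟨e, t⟩
  · simp only [div]
    refine Finset.sum_le_sum fun e _ => ?_
    refine add_le_add ?_ ?_
    · split_ifs with hv
      · refine PL.le_ms_left ?_ _ _
        rw [F.at_src, F'.at_src, hv]
        exact h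
      · exact le_rfl
    · split_ifs with hv
      · refine PL.le_ms_left ?_ _ _
        rw [F.at_tgt, F'.at_tgt, hv]
        exact h
      · exact le_rfl
  · exact add_le_add (PL.le_ms_left h _ _) (PL.le_ms_left h _ _)

theorem div_le_sup_right (F F' : RatFun G) (x : Pt V E) (h : F.at' x ≤ F'.at' x) :
    F'.div x ≤ (F.sup F').div x := by
  rcases x with v | ⟨e, t⟩
  · simp only [div]
    refine Finset.sum_le_sum fun e _ => ?_
    refine add_le_add ?_ ?_
    · split_ifs with hv
      · refine PL.le_ms_right ?_ _ _
        rw [F.at_src, F'.at_src, hv]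
        exact h
      · exact le_rfl
    · split_ifs with hv
      · refine PL.le_ms_right ?_ _ _
        rw [F.at_tgt, F'.at_tgt, hv]
        exact h
      · exact le_rfl
  · exact add_le_add (PL.le_ms_right h _ _) (PL.le_ms_right h _ _)

/-- the maximum of two members of the linear system of `D` is a member -/
theorem sup_nonneg (F F' : RatFun G) (D : Pt V E → ℤ) (h : ∀ x, 0 ≤ D x + F.div x)
    (h' : ∀ x, 0 ≤ D x + F'.div x) (x : Pt V E) : 0 ≤ D x + (F.sup F').div x := by
  rcases le_total (F'.at' x) (F.at' x) with c | c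
  · have := div_le_sup_left F F' x c
    have := h x
    linarith
  · have := div_le_sup_right F F' x c
    have := h' x
    linarith

/-- the divisor of a rational function has finite support and degree zero -/
theorem exists_finsupp [Fintype V] (F : RatFun G) :
    ∃ P : Pt V E →₀ ℤ, (∀ x, P x = F.div x) ∧ deg P = 0 := by
  classical
  have h1 : ∀ e, ∃ T : Finset (Set.Ioo (0 : ℝ) 1),
      (∀ t : Set.Ioo (0 : ℝ) 1, t ∉ T → F.right e t + F.left e t = 0) ∧
      F.right e 0 + F.left e 1 + ∑ t ∈ T, (F.right e t + F.left e t) = 0 := by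
    intro e
    obtain ⟨T, hT1, hT2, hT3⟩ := (F.pl e).stokes_aux 1 one_pos le_rfl
    refine ⟨T.subtype (fun t => t ∈ Set.Ioo (0 : ℝ) 1), ?_, ?_⟩
    · intro t ht
      refine hT2 t t.2.1 t.2.2 fun hm => ht ?_
      rw [Finset.mem_subtype]
      exact hm
    · have := Finset.sum_subtype_of_mem (p := fun t => t ∈ Set.Ioo (0 : ℝ) 1)
        (fun t : ℝ => F.right e t + F.left e t) (s := T) (fun t ht => hT1 t ht)
      exact (congrArg (fun z => F.right e 0 + F.left e 1 + z) this).trans hT3
  choose T hT1 hT2 using h1
  set U : Finset (Set.Ioo (0 : ℝ) 1) := Finset.univ.biUnion T with hU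
  have hU1 : ∀ e (t : Set.Ioo (0 : ℝ) 1), t ∉ U → F.right e t + F.left e t = 0 := by
    intro e t ht
    refine hT1 e t fun hm => ht ?_
    rw [hU, Finset.mem_biUnion]
    exact ⟨e, Finset.mem_univ _, hm⟩
  have hU2 : ∀ e, F.right e 0 + F.left e 1 + ∑ t ∈ U, (F.right e t + F.left e t) = 0 := by
    intro e
    rw [← Finset.sum_subset (s₁ := T e)]
    · exact hT2 e
    · intro t ht
      rw [hU, Finset.mem_biUnion]
      exact ⟨e, Finset.mem_univ _, ht⟩
    · intro t _ ht
      exact hT1 e t ht
  have hsub : ∀ x : Pt V E, F.div x ≠ 0 →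
      x ∈ (Finset.univ : Finset V).disjSum ((Finset.univ : Finset E) ×ˢ U) := by
    rintro (v | ⟨e, t⟩) hx
    · simp
    · rw [Finset.inr_mem_disjSum, Finset.mem_product]
      refine ⟨Finset.mem_univ _, ?_⟩
      by_contra hc
      exact hx (hU1 e t hc)
  refine ⟨Finsupp.onFinset _ F.div hsub, fun x => rfl, ?_⟩
  rw [deg, Finsupp.sum, Finset.sum_subset (Finsupp.support_onFinset_subset)]
  · rw [Finset.sum_disjSum, Finset.sum_product]
    simp only [Finsupp.onFinset_apply, div]
    rw [Finset.sum_comm, ← Finset.sum_add_distrib]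
    refine Finset.sum_eq_zero fun e _ => ?_
    rw [Finset.sum_add_distrib]
    simp only [Finset.sum_ite_eq, Finset.mem_univ, if_true]
    exact hU2 e
  · intro x _ hx
    simpa using hx

theorem div_knot_vertex (f : V → ℝ) (s₁ s₂ : E → ℤ)
    (h : ∀ e, f (G.tgt e) = f (G.src e) + ((s₁ e : ℝ) + s₂ e) / 2) (v : V) :
    (knot G f s₁ s₂ h).div (Sum.inl v) =
      ∑ e : E, ((if G.src e = v then s₁ e else 0) + (if G.tgt e = v then - s₂ e else 0)) := by
  simp only [div, knot]
  refine Finset.sum_congr rfl fun e _ => ?_
  rw [if_pos (show (0 : ℝ) < 1 / 2 by norm_num), if_neg (show ¬ (1 : ℝ) ≤ 1 / 2 by norm_num)]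

theorem div_knot_edge (f : V → ℝ) (s₁ s₂ : E → ℤ)
    (h : ∀ e, f (G.tgt e) = f (G.src e) + ((s₁ e : ℝ) + s₂ e) / 2) (e : E)
    (t : Set.Ioo (0 : ℝ) 1) :
    (knot G f s₁ s₂ h).div (Sum.inr (e, t)) = if (t : ℝ) = 1 / 2 then s₂ e - s₁ e else 0 := by
  simp only [div, knot]
  rcases lt_trichotomy (t : ℝ) (1 / 2) with c | c | c
  · rw [if_pos c, if_pos c.le, if_neg c.ne]
    ring
  · rw [if_neg (by linarith), if_pos c.le, if_pos c]
    ring
  · rw [if_neg (by linarith), if_neg (by linarith), if_neg c.ne']
    ring

/-- a firing script as a rational function -/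
noncomputable def ofInt (G : MGraph V E) (f : V → ℤ) : RatFun G :=
  knot G (fun v => f v) (fun e => f (G.tgt e) - f (G.src e)) (fun e => f (G.tgt e) - f (G.src e))
    (fun e => by push_cast; ring)

theorem div_ofInt_vertex (f : V → ℤ) (v : V) : (ofInt G f).div (Sum.inl v) = G.fire f v := by
  rw [ofInt, div_knot_vertex, MGraph.fire]
  refine Finset.sum_congr rfl fun e _ => ?_
  congr 1
  · split_ifs with h
    · rw [h]
    · rfl
  · split_ifs with h
    · rw [h]
      ring
    · rfl

theorem div_ofInt_edge (f : V → ℤ) (e : E) (t : Set.Ioo (0 : ℝ) 1) :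
    (ofInt G f).div (Sum.inr (e, t)) = 0 := by
  rw [ofInt, div_knot_edge]
  simp

end RatFun

end Pool.Agent.Q254.Gonal
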