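import Mathlib

/-!
# Piecewise linear functions on the unit interval, described by their one-sided germs
-/

set_option autoImplicit false

namespace Pool.Agent.Q254.Gonal

/-- `φ` is, on `[0, 1]`, a continuous piecewise linear function with integer slopes: at every point
`t < 1` the function is linear on some interval `[t, t + ε]`, with outgoing slope the integer `R t`,
and at every point `t > 0` it is linear on some interval `[t - ε, t]`, with outgoing slope (in the
direction of decreasing argument) the integer `L t`.  As `[0, 1]` is compact this means that `φ` is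
continuous with finitely many linear pieces of integer slope. -/
structure PL (φ : ℝ → ℝ) (R L : ℝ → ℤ) : Prop where
  right : ∀ t, 0 ≤ t → t < 1 →
    ∃ ε > 0, ∀ u, t ≤ u → u ≤ t + ε → φ u = φ t + (R t : ℝ) * (u - t)
  left : ∀ t, 0 < t → t ≤ 1 →
    ∃ ε > 0, ∀ u, t - ε ≤ u → u ≤ t → φ u = φ t + (L t : ℝ) * (t - u)

namespace PL

variable {φ ψ : ℝ → ℝ} {R L R' L' : ℝ → ℤ}

theorem const (c : ℝ) : PL (fun _ => c) (fun _ => 0) (fun _ => 0) where
  right := fun t _ _ => ⟨1, one_pos, fun u _ _ => by simp⟩
  left := fun t _ _ => ⟨1, one_pos, fun u _ _ => by simp⟩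

theorem add (h : PL φ R L) (h' : PL ψ R' L') :
    PL (fun t => φ t + ψ t) (fun t => R t + R' t) (fun t => L t + L' t) where
  right := fun t h0 h1 => by
    obtain ⟨ε, hε, H⟩ := h.right t h0 h1
    obtain ⟨ε', hε', H'⟩ := h'.right t h0 h1
    refine ⟨min ε ε', lt_min hε hε', fun u hu hu' => ?_⟩
    have e1 := H u hu (by linarith [min_le_left ε ε'])
    have e2 := H' u hu (by linarith [min_le_right ε ε'])
    simp only [e1, e2]
    push_cast
    ring
  left := fun t h0 h1 => by
    obtain ⟨ε, hε, H⟩ := h.left t h0 h1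
    obtain ⟨ε', hε', H'⟩ := h'.left t h0 h1
    refine ⟨min ε ε', lt_min hε hε', fun u hu hu' => ?_⟩
    have e1 := H u (by linarith [min_le_left ε ε']) hu'
    have e2 := H' u (by linarith [min_le_right ε ε']) hu'
    simp only [e1, e2]
    push_cast
    ring

theorem neg (h : PL φ R L) : PL (fun t => - φ t) (fun t => - R t) (fun t => - L t) where
  right := fun t h0 h1 => by
    obtain ⟨ε, hε, H⟩ := h.right t h0 h1
    refine ⟨ε, hε, fun u hu hu' => ?_⟩
    simp only [H u hu hu']
    push_cast
    ring
  left := fun t h0 h1 => by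
    obtain ⟨ε, hε, H⟩ := h.left t h0 h1
    refine ⟨ε, hε, fun u hu hu' => ?_⟩
    simp only [H u hu hu']
    push_cast
    ring

theorem rev (h : PL φ R L) :
    PL (fun t => φ (1 - t)) (fun t => L (1 - t)) (fun t => R (1 - t)) where
  right := fun t h0 h1 => by
    obtain ⟨ε, hε, H⟩ := h.left (1 - t) (by linarith) (by linarith)
    refine ⟨ε, hε, fun u hu hu' => ?_⟩
    have := H (1 - u) (by linarith) (by linarith)
    simp only [this]
    ring
  left := fun t h0 h1 => by
    obtain ⟨ε, hε, H⟩ := h.right (1 - t) (by linarith) (by linarith)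
    refine ⟨ε, hε, fun u hu hu' => ?_⟩
    have := H (1 - u) (by linarith) (by linarith)
    simp only [this]
    ring

/-- slope of the maximum of two germs -/
noncomputable def ms (x y : ℝ) (a b : ℤ) : ℤ := if x < y then b else if y < x then a else max a b

theorem pos_near {a : ℝ} (ha : 0 < a) (c : ℝ) : ∃ ε > 0, ∀ s, 0 ≤ s → s ≤ ε → 0 ≤ a + c * s := by
  refine ⟨a / (|c| + 1), by positivity, fun s h0 h1 => ?_⟩
  have hc : 0 < |c| + 1 := by positivity
  have h2 : s * (|c| + 1) ≤ a := by
    rwa [le_div_iff₀ hc] at h1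
  have h3 : - (|c| * s) ≤ c * s := by
    have := neg_abs_le c
    nlinarith
  nlinarith

theorem germ_max (x y : ℝ) (a b : ℤ) : ∃ ε > 0, ∀ s, 0 ≤ s → s ≤ ε →
    max (x + a * s) (y + b * s) = max x y + (ms x y a b : ℝ) * s := by
  rcases lt_trichotomy x y with h | h | h
  · obtain ⟨ε, hε, H⟩ := pos_near (sub_pos.2 h) ((b : ℝ) - a)
    refine ⟨ε, hε, fun s h0 h1 => ?_⟩
    have := H s h0 h1
    rw [max_eq_right (by nlinarith), max_eq_right h.le, ms, if_pos h]
  · subst h
    refine ⟨1, one_pos, fun s h0 _ => ?_⟩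
    rw [max_self, ms, if_neg (lt_irrefl _), if_neg (lt_irrefl _)]
    rcases le_total a b with hab | hab
    · have : (a : ℝ) ≤ b := by exact_mod_cast hab
      rw [max_eq_right hab, max_eq_right (by nlinarith)]
    · have : (b : ℝ) ≤ a := by exact_mod_cast hab
      rw [max_eq_left hab, max_eq_left (by nlinarith)]
  · obtain ⟨ε, hε, H⟩ := pos_near (sub_pos.2 h) ((a : ℝ) - b)
    refine ⟨ε, hε, fun s h0 h1 => ?_⟩
    have := H s h0 h1
    rw [max_eq_left (by nlinarith), max_eq_left h.le, ms, if_neg (not_lt.2 h.le), if_pos h]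

theorem sup (h : PL φ R L) (h' : PL ψ R' L') :
    PL (fun t => max (φ t) (ψ t)) (fun t => ms (φ t) (ψ t) (R t) (R' t))
      (fun t => ms (φ t) (ψ t) (L t) (L' t)) where
  right := fun t h0 h1 => by
    obtain ⟨ε, hε, H⟩ := h.right t h0 h1
    obtain ⟨ε', hε', H'⟩ := h'.right t h0 h1
    obtain ⟨η, hη, K⟩ := germ_max (φ t) (ψ t) (R t) (R' t)
    refine ⟨min η (min ε ε'), lt_min hη (lt_min hε hε'), fun u hu hu' => ?_⟩
    have m1 := min_le_left η (min ε ε')
    have m2 := min_le_right η (min ε ε')
    have m3 := min_le_left ε ε'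
    have m4 := min_le_right ε ε'
    simp only [H u hu (by linarith), H' u hu (by linarith)]
    exact K (u - t) (by linarith) (by linarith)
  left := fun t h0 h1 => by
    obtain ⟨ε, hε, H⟩ := h.left t h0 h1
    obtain ⟨ε', hε', H'⟩ := h'.left t h0 h1
    obtain ⟨η, hη, K⟩ := germ_max (φ t) (ψ t) (L t) (L' t)
    refine ⟨min η (min ε ε'), lt_min hη (lt_min hε hε'), fun u hu hu' => ?_⟩
    have m1 := min_le_left η (min ε ε')
    have m2 := min_le_right η (min ε ε')
    have m3 := min_le_left ε ε'
    have m4 := min_le_right ε ε'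
    simp only [H u (by linarith) hu', H' u (by linarith) hu']
    exact K (t - u) (by linarith) (by linarith)

theorem le_ms_left {x y : ℝ} (h : y ≤ x) (a b : ℤ) : a ≤ ms x y a b := by
  unfold ms
  rw [if_neg (not_lt.2 h)]
  split_ifs
  · exact le_rfl
  · exact le_max_left _ _

theorem le_ms_right {x y : ℝ} (h : x ≤ y) (a b : ℤ) : b ≤ ms x y a b := by
  unfold ms
  split_ifs with h1 h2
  · exact le_rfl
  · exact absurd h2 (not_lt.2 h)
  · exact le_max_right _ _

theorem ms_eq (x : ℝ) (a b : ℤ) : ms x x a b = max a b := by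
  simp [ms]

/-- two-piece function with a knot at `1/2` -/
theorem knot (c : ℝ) (s₁ s₂ : ℤ) :
    PL (fun t => if t ≤ 1 / 2 then c + s₁ * t else c + s₁ / 2 + s₂ * (t - 1 / 2))
      (fun t => if t < 1 / 2 then s₁ else s₂) (fun t => if t ≤ 1 / 2 then - s₁ else - s₂) where
  right := fun t h0 h1 => by
    by_cases h : t < 1 / 2
    · refine ⟨1 / 2 - t, by linarith, fun u hu hu' => ?_⟩
      rw [if_pos h]
      simp only [if_pos h.le, if_pos (show u ≤ 1 / 2 by linarith)]
      ring
    · refine ⟨1, one_pos, fun u hu hu' => ?_⟩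
      rw [if_neg h]
      by_cases hu1 : u ≤ 1 / 2
      · have e1 : t = 1 / 2 := by linarith
        have e2 : u = 1 / 2 := by linarith
        subst e1 e2
        simp
      · by_cases ht1 : t ≤ 1 / 2
        · have e1 : t = 1 / 2 := by linarith
          simp only [if_neg hu1, if_pos ht1]
          rw [e1]
          ring
        · simp only [if_neg hu1, if_neg ht1]
          ring
  left := fun t h0 h1 => by
    by_cases h : t ≤ 1 / 2
    · refine ⟨1, one_pos, fun u hu hu' => ?_⟩
      simp only [if_pos h, if_pos (show u ≤ 1 / 2 by linarith)]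
      push_cast
      ring
    · refine ⟨t - 1 / 2, by linarith, fun u hu hu' => ?_⟩
      by_cases hu1 : u ≤ 1 / 2
      · have e2 : u = 1 / 2 := by linarith
        simp only [if_neg h, if_pos hu1]
        rw [e2]
        push_cast
        ring
      · simp only [if_neg h, if_neg hu1]
        push_cast
        ring

/-- trapezoid -/
theorem trap {z₁ p q z₂ δ : ℝ} (h1 : z₁ + δ = p) (h2 : q + δ = z₂) (h3 : p ≤ q) (hδ : 0 < δ) :
    PL (fun t => if t ≤ z₁ then 0 else if t ≤ p then -(t - z₁) else if t ≤ q then -δ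
        else if t ≤ z₂ then -(z₂ - t) else 0)
      (fun t => if t < z₁ then 0 else if t < p then -1 else if t < q then 0
        else if t < z₂ then 1 else 0)
      (fun t => if t ≤ z₁ then 0 else if t ≤ p then 1 else if t ≤ q then 0
        else if t ≤ z₂ then -1 else 0) where
  right := fun t _ _ => by
    by_cases c1 : t < z₁
    · refine ⟨z₁ - t, by linarith, fun u hu hu' => ?_⟩
      simp only [if_pos c1, if_pos c1.le, if_pos (show u ≤ z₁ by linarith)]
      simp
    by_cases c2 : t < p
    · refine ⟨p - t, by linarith, fun u hu hu' => ?_⟩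
      simp only [if_neg c1, if_pos c2]
      split_ifs <;> push_cast <;> linarith
    by_cases c3 : t < q
    · refine ⟨q - t, by linarith, fun u hu hu' => ?_⟩
      simp only [if_neg c1, if_neg c2, if_pos c3]
      split_ifs <;> push_cast <;> linarith
    by_cases c4 : t < z₂
    · refine ⟨z₂ - t, by linarith, fun u hu hu' => ?_⟩
      simp only [if_neg c1, if_neg c2, if_neg c3, if_pos c4]
      split_ifs <;> push_cast <;> linarith
    · refine ⟨1, one_pos, fun u hu hu' => ?_⟩
      simp only [if_neg c1, if_neg c2, if_neg c3, if_neg c4]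
      split_ifs <;> push_cast <;> linarith
  left := fun t _ _ => by
    by_cases c1 : t ≤ z₁
    · refine ⟨1, one_pos, fun u hu hu' => ?_⟩
      simp only [if_pos c1, if_pos (show u ≤ z₁ by linarith)]
      simp
    by_cases c2 : t ≤ p
    · refine ⟨t - z₁, by linarith, fun u hu hu' => ?_⟩
      simp only [if_neg c1, if_pos c2]
      split_ifs <;> push_cast <;> linarith
    by_cases c3 : t ≤ q
    · refine ⟨t - p, by linarith, fun u hu hu' => ?_⟩
      simp only [if_neg c1, if_neg c2, if_pos c3]
      split_ifs <;> push_cast <;> linarith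
    by_cases c4 : t ≤ z₂
    · refine ⟨t - q, by linarith, fun u hu hu' => ?_⟩
      simp only [if_neg c1, if_neg c2, if_neg c3, if_pos c4]
      split_ifs <;> push_cast <;> linarith
    · refine ⟨t - z₂, by linarith, fun u hu hu' => ?_⟩
      simp only [if_neg c1, if_neg c2, if_neg c3, if_neg c4]
      split_ifs <;> push_cast <;> linarith

theorem right_unique (h : PL φ R L) {t : ℝ} (h0 : 0 ≤ t) (h1 : t < 1) {a : ℝ} {ε : ℝ} (hε : 0 < ε)
    (H : ∀ u, t ≤ u → u ≤ t + ε → φ u = φ t + a * (u - t)) : (R t : ℝ) = a := by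
  obtain ⟨η, hη, K⟩ := h.right t h0 h1
  have hm : 0 < min ε η := lt_min hε hη
  have e1 := H (t + min ε η) (by linarith) (by linarith [min_le_left ε η])
  have e2 := K (t + min ε η) (by linarith) (by linarith [min_le_right ε η])
  have e3 : ((R t : ℝ) - a) * min ε η = 0 := by
    have : φ t + a * (t + min ε η - t) = φ t + (R t : ℝ) * (t + min ε η - t) := by rw [← e1, e2]
    linarith
  rcases mul_eq_zero.1 e3 with e | e
  · linarith
  · linarith

theorem left_unique (h : PL φ R L) {t : ℝ} (h0 : 0 < t) (h1 : t ≤ 1) {a : ℝ} {ε : ℝ} (hε : 0 < ε)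
    (H : ∀ u, t - ε ≤ u → u ≤ t → φ u = φ t + a * (t - u)) : (L t : ℝ) = a := by
  obtain ⟨η, hη, K⟩ := h.left t h0 h1
  have hm : 0 < min ε η := lt_min hε hη
  have e1 := H (t - min ε η) (by linarith [min_le_left ε η]) (by linarith)
  have e2 := K (t - min ε η) (by linarith [min_le_right ε η]) (by linarith)
  have e3 : ((L t : ℝ) - a) * min ε η = 0 := by
    have : φ t + a * (t - (t - min ε η)) = φ t + (L t : ℝ) * (t - (t - min ε η)) := by
      rw [← e1, e2]
    linarith
  rcases mul_eq_zero.1 e3 with e | e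
  · linarith
  · linarith

/-- slopes inside an interval on which the function is linear -/
theorem inside (h : PL φ R L) {x y a c : ℝ} (hx : 0 ≤ x) (hy : y ≤ 1)
    (H : ∀ u, x ≤ u → u ≤ y → φ u = c + a * u) :
    (∀ t, x ≤ t → t < y → (R t : ℝ) = a) ∧ (∀ t, x < t → t ≤ y → (L t : ℝ) = -a) := by
  constructor
  · intro t h1 h2
    refine h.right_unique (by linarith) (by linarith) (sub_pos.2 h2) fun u hu hu' => ?_
    rw [H u (by linarith) (by linarith), H t h1 h2.le]
    ring
  · intro t h1 h2
    refine h.left_unique (by linarith) (by linarith) (sub_pos.2 h1) fun u hu hu' => ?_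
    rw [H u (by linarith) (by linarith), H t h1.le h2]
    ring

/-- Stokes' formula on an edge -/
theorem stokes_aux (h : PL φ R L) (x : ℝ) (hx0 : 0 < x) (hx1 : x ≤ 1) :
    ∃ T : Finset ℝ, (∀ t ∈ T, 0 < t ∧ t < x) ∧ (∀ t, 0 < t → t < x → t ∉ T → R t + L t = 0) ∧
      R 0 + L x + ∑ t ∈ T, (R t + L t) = 0 := by
  by_contra hcon
  set S : Set ℝ := {x | 0 < x ∧ x ≤ 1 ∧ ¬ ∃ T : Finset ℝ, (∀ t ∈ T, 0 < t ∧ t < x) ∧
    (∀ t, 0 < t → t < x → t ∉ T → R t + L t = 0) ∧ R 0 + L x + ∑ t ∈ T, (R t + L t) = 0} with hS
  have hxS : x ∈ S := ⟨hx0, hx1, hcon⟩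
  have hbdd : BddBelow S := ⟨0, fun y hy => hy.1.le⟩
  set s := sInf S with hs
  have hs0 : 0 ≤ s := le_csInf ⟨x, hxS⟩ fun y hy => hy.1.le
  have hs1 : s ≤ 1 := (csInf_le hbdd hxS).trans hx1
  -- propagation to the right of `s`
  have key : ∃ ε > 0, ∀ y, s < y → y ≤ s + ε → y ≤ 1 → y ∉ S := by
    rcases hs0.eq_or_lt with h0 | h0
    · obtain ⟨ε, hε, H⟩ := h.right 0 le_rfl one_pos
      refine ⟨ε, hε, fun y h1 h2 h3 hy => hy.2.2 ⟨∅, by simp, ?_, ?_⟩⟩
      · intro t ht0 ht1 _
        have hi := h.inside (x := 0) (y := y) (a := R 0) (c := φ 0) le_rfl h3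
          (fun u hu hu' => by rw [H u hu (by linarith)]; ring)
        have e1 := hi.1 t ht0.le ht1
        have e2 := hi.2 t ht0 ht1.le
        have : ((R t + L t : ℤ) : ℝ) = 0 := by push_cast; linarith
        exact_mod_cast this
      · have hi := h.inside (x := 0) (y := y) (a := R 0) (c := φ 0) le_rfl h3
          (fun u hu hu' => by rw [H u hu (by linarith)]; ring)
        have e2 := hi.2 y (by linarith) le_rfl
        have : ((R 0 + L y : ℤ) : ℝ) = 0 := by push_cast; linarith
        simpa using (by exact_mod_cast this : R 0 + L y = 0)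
    · -- the property holds at `s`
      have hPs : ∃ T : Finset ℝ, (∀ t ∈ T, 0 < t ∧ t < s) ∧
          (∀ t, 0 < t → t < s → t ∉ T → R t + L t = 0) ∧ R 0 + L s + ∑ t ∈ T, (R t + L t) = 0 := by
        obtain ⟨ε, hε, H⟩ := h.left s h0 hs1
        set y := max (s / 2) (s - ε) with hy
        have hy0 : 0 < y := lt_of_lt_of_le (by linarith) (le_max_left _ _)
        have hys : y < s := max_lt (by linarith) (by linarith)
        have hyS : y ∉ S := fun hyS => absurd (csInf_le hbdd hyS) (not_le.2 hys)
        have hyP : ∃ T : Finset ℝ, (∀ t ∈ T, 0 < t ∧ t < y) ∧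
            (∀ t, 0 < t → t < y → t ∉ T → R t + L t = 0) ∧
            R 0 + L y + ∑ t ∈ T, (R t + L t) = 0 := by
          by_contra hc
          exact hyS ⟨hy0, by linarith, hc⟩
        obtain ⟨T, hT1, hT2, hT3⟩ := hyP
        set w := max (y / 2) (s - ε) with hw
        have hlin : ∀ u, s - ε ≤ u → u ≤ s → φ u = (φ s + L s * s) + (-(L s : ℝ)) * u := by
          intro u hu hu'
          rw [H u hu hu']
          ring
        by_cases hyε : s - ε < y
        · have hwy : w < y := max_lt (by linarith) hyε
          have hi := h.inside (x := w) (y := s) (a := -(L s : ℝ)) (c := φ s + L s * s)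
            (le_trans (by linarith) (le_max_left _ _)) hs1
            (fun u hu hu' => hlin u (le_trans (le_max_right _ _) hu) hu')
          refine ⟨T, fun t ht => ⟨(hT1 t ht).1, (hT1 t ht).2.trans hys⟩, ?_, ?_⟩
          · intro t ht0 hts htT
            rcases lt_or_ge t y with c | c
            · exact hT2 t ht0 c htT
            · have e1 := hi.1 t (by linarith) hts
              have e2 := hi.2 t (by linarith) hts.le
              have : ((R t + L t : ℤ) : ℝ) = 0 := by push_cast; linarith
              exact_mod_cast this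
          · have e2 := hi.2 y hwy hys.le
            have : (L y : ℝ) = L s := by linarith
            have : L y = L s := by exact_mod_cast this
            rw [← this]
            exact hT3
        · -- then `y = s - ε`, take a point slightly to the right
          have hye : y = s - ε := le_antisymm (not_lt.1 hyε) (le_max_right _ _)
          set y' := (y + s) / 2 with hy'
          have hyS' : y' ∉ S := fun hyS => absurd (csInf_le hbdd hyS) (not_le.2 (by linarith))
          have hyP' : ∃ T : Finset ℝ, (∀ t ∈ T, 0 < t ∧ t < y') ∧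
              (∀ t, 0 < t → t < y' → t ∉ T → R t + L t = 0) ∧
              R 0 + L y' + ∑ t ∈ T, (R t + L t) = 0 := by
            by_contra hc
            exact hyS' ⟨by linarith, by linarith, hc⟩
          obtain ⟨T, hT1, hT2, hT3⟩ := hyP'
          have hi := h.inside (x := y) (y := s) (a := -(L s : ℝ)) (c := φ s + L s * s)
            hy0.le hs1 (fun u hu hu' => hlin u (by linarith) hu')
          refine ⟨T, fun t ht => ⟨(hT1 t ht).1, (hT1 t ht).2.trans (by linarith)⟩, ?_, ?_⟩
          · intro t ht0 hts htT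
            rcases lt_or_ge t y' with c | c
            · exact hT2 t ht0 c htT
            · have e1 := hi.1 t (by linarith) hts
              have e2 := hi.2 t (by linarith) hts.le
              have : ((R t + L t : ℤ) : ℝ) = 0 := by push_cast; linarith
              exact_mod_cast this
          · have e2 := hi.2 y' (by linarith) (by linarith)
            have : (L y' : ℝ) = L s := by linarith
            have : L y' = L s := by exact_mod_cast this
            rw [← this]
            exact hT3
      rcases hs1.eq_or_lt with h1 | h1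
      · exact ⟨1, one_pos, fun y hy _ hy1 _ => absurd hy (by linarith)⟩
      obtain ⟨ε, hε, H⟩ := h.right s hs0 h1
      obtain ⟨T, hT1, hT2, hT3⟩ := hPs
      refine ⟨ε, hε, fun y k1 k2 k3 hy => hy.2.2 ?_⟩
      have hi := h.inside (x := s) (y := y) (a := (R s : ℝ)) (c := φ s - R s * s) hs0 k3
        (fun u hu hu' => by rw [H u hu (by linarith)]; ring)
      have hsT : s ∉ T := fun hm => absurd (hT1 s hm).2 (lt_irrefl _)
      refine ⟨insert s T, ?_, ?_, ?_⟩
      · intro t ht
        rcases Finset.mem_insert.1 ht with rfl | ht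
        · exact ⟨h0, k1⟩
        · exact ⟨(hT1 t ht).1, (hT1 t ht).2.trans k1⟩
      · intro t ht0 hty htT
        rw [Finset.mem_insert, not_or] at htT
        rcases lt_trichotomy t s with c | c | c
        · exact hT2 t ht0 c htT.2
        · exact absurd c htT.1
        · have e1 := hi.1 t c.le hty
          have e2 := hi.2 t c hty.le
          have : ((R t + L t : ℤ) : ℝ) = 0 := by push_cast; linarith
          exact_mod_cast this
      · rw [Finset.sum_insert hsT]
        have e2 := hi.2 y k1 le_rfl
        have : ((L y : ℤ) : ℝ) = ((- R s : ℤ) : ℝ) := by push_cast; linarith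
        have : L y = - R s := by exact_mod_cast this
        rw [this]
        linarith
  obtain ⟨ε, hε, hk⟩ := key
  have hsS : s ∉ S := by
    intro hsm
    have hs0' : 0 < s := hsm.1
    -- repeat the argument at `s`
    obtain ⟨ε, hε, H⟩ := h.left s hs0' hs1
    set y := max (s / 2) (s - ε / 2) with hy
    have hy0 : 0 < y := lt_of_lt_of_le (by linarith) (le_max_left _ _)
    have hys : y < s := max_lt (by linarith) (by linarith)
    have hyε : s - ε < y := lt_of_lt_of_le (by linarith) (le_max_right _ _)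
    have hyS : y ∉ S := fun hyS => absurd (csInf_le hbdd hyS) (not_le.2 hys)
    have hyP : ∃ T : Finset ℝ, (∀ t ∈ T, 0 < t ∧ t < y) ∧
        (∀ t, 0 < t → t < y → t ∉ T → R t + L t = 0) ∧
        R 0 + L y + ∑ t ∈ T, (R t + L t) = 0 := by
      by_contra hc
      exact hyS ⟨hy0, by linarith, hc⟩
    obtain ⟨T, hT1, hT2, hT3⟩ := hyP
    have hlin : ∀ u, s - ε ≤ u → u ≤ s → φ u = (φ s + L s * s) + (-(L s : ℝ)) * u := by
      intro u hu hu'
      rw [H u hu hu']
      ring
    set w := max (y / 2) (s - ε) with hw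
    have hwy : w < y := max_lt (by linarith) hyε
    have hi := h.inside (x := w) (y := s) (a := -(L s : ℝ)) (c := φ s + L s * s)
      (le_trans (by linarith) (le_max_left _ _)) hs1
      (fun u hu hu' => hlin u (le_trans (le_max_right _ _) hu) hu')
    refine hsm.2.2 ⟨T, fun t ht => ⟨(hT1 t ht).1, (hT1 t ht).2.trans hys⟩, ?_, ?_⟩
    · intro t ht0 hts htT
      rcases lt_or_ge t y with c | c
      · exact hT2 t ht0 c htT
      · have e1 := hi.1 t (by linarith) hts
        have e2 := hi.2 t (by linarith) hts.le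
        have : ((R t + L t : ℤ) : ℝ) = 0 := by push_cast; linarith
        exact_mod_cast this
    · have e2 := hi.2 y hwy hys.le
      have : (L y : ℝ) = L s := by linarith
      have : L y = L s := by exact_mod_cast this
      rw [← this]
      exact hT3
  obtain ⟨y, hyS, hy⟩ := exists_lt_of_csInf_lt ⟨x, hxS⟩ (show sInf S < s + ε by linarith)
  have hsy : s ≤ y := csInf_le hbdd hyS
  rcases hsy.eq_or_lt with e | e
  · exact hsS (e ▸ hyS)
  · exact hk y e hy.le hyS.2.1 hyS

/-- if `φ` vanishes at `t₀` then it vanishes on `[0, t₀]` or has a zero with nonzero left slope -/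
theorem zero_left (h : PL φ R L) {t₀ : ℝ} (ht1 : t₀ ≤ 1) (hz : φ t₀ = 0) :
    (∀ t, 0 ≤ t → t ≤ t₀ → φ t = 0) ∨ ∃ s, 0 < s ∧ s ≤ t₀ ∧ φ s = 0 ∧ L s ≠ 0 := by
  by_contra hcon
  push Not at hcon
  obtain ⟨⟨y, hy0, hyt, hy⟩, hall⟩ := hcon
  set A : Set ℝ := {y | 0 ≤ y ∧ y ≤ t₀ ∧ φ y ≠ 0} with hA
  have hyA : y ∈ A := ⟨hy0, hyt, hy⟩
  have hbdd : BddAbove A := ⟨t₀, fun z hz => hz.2.1⟩
  set s := sSup A with hs
  have hys : y ≤ s := le_csSup hbdd hyA
  have hst : s ≤ t₀ := csSup_le ⟨y, hyA⟩ fun z hz => hz.2.1
  have hs0 : φ s = 0 := by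
    by_contra hne
    have hlt : s < t₀ := lt_of_le_of_ne hst (fun e => hne (e ▸ hz))
    obtain ⟨ε, hε, H⟩ := h.right s (by linarith) (by linarith)
    set d := min ε (t₀ - s) with hd
    have hd0 : 0 < d := lt_min hε (by linarith)
    have hd1 : d ≤ ε := min_le_left _ _
    have hd2 : d ≤ t₀ - s := min_le_right _ _
    have e1 : φ (s + d) = 0 := by
      by_contra hc
      have : s + d ≤ s := le_csSup hbdd ⟨by linarith, by linarith, hc⟩
      linarith
    have e2 : φ (s + d / 2) = 0 := by
      by_contra hc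
      have : s + d / 2 ≤ s := le_csSup hbdd ⟨by linarith, by linarith, hc⟩
      linarith
    rw [H _ (by linarith) (by linarith)] at e1 e2
    apply hne
    linarith
  have hspos : 0 < s := by
    rcases (hy0.trans hys).eq_or_lt with e | e
    · exfalso
      have : y = s := le_antisymm hys (by linarith)
      exact hy (this ▸ hs0)
    · exact e
  have hL := hall s hspos hst hs0
  obtain ⟨ε, hε, H⟩ := h.left s hspos (by linarith)
  have : s ≤ s - ε := by
    refine csSup_le ⟨y, hyA⟩ fun z hz => ?_
    by_contra hc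
    push Not at hc
    have hzs : z ≤ s := le_csSup hbdd hz
    apply hz.2.2
    rw [H z hc.le hzs, hs0, hL]
    simp
  linarith

end PL

end Pool.Agent.Q254.Gonal
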