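import Pool.Agent.Q254.Gonal.Metric

/-!
# Rank of divisors on a metric graph is detected on the vertices
-/

set_option autoImplicit false

namespace Pool.Agent.Q254.Gonal

open Finset

variable {V E : Type}

open Classical in
/-- one chip at `p` -/
noncomputable def one (p : Pt V E) : Pt V E → ℤ := fun x => if x = p then 1 else 0

theorem one_self (p : Pt V E) : one p p = 1 := by simp [one]

theorem one_ne {p x : Pt V E} (h : x ≠ p) : one p x = 0 := by simp [one, h]

theorem one_nonneg (p x : Pt V E) : 0 ≤ one p x := by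
  unfold one
  split_ifs <;> norm_num

section

variable [Fintype E] [DecidableEq V] {G : MGraph V E}

/-- equivalent to an effective divisor -/
def Win (G : MGraph V E) (D : Pt V E → ℤ) : Prop := ∃ F : RatFun G, ∀ x, 0 ≤ D x + F.div x

theorem Win.add {D D' : Pt V E → ℤ} (h : Win G D) (h' : Win G D') :
    Win G (fun x => D x + D' x) := by
  obtain ⟨F, hF⟩ := h
  obtain ⟨F', hF'⟩ := h'
  refine ⟨F.add F', fun x => ?_⟩
  rw [RatFun.div_add]
  linarith [hF x, hF' x]

theorem Win.mono {D D' : Pt V E → ℤ} (h : Win G D) (hle : ∀ x, D x ≤ D' x) : Win G D' := by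
  obtain ⟨F, hF⟩ := h
  exact ⟨F, fun x => by linarith [hF x, hle x]⟩

theorem Win.congr {D D' : Pt V E → ℤ} (h : Win G D) (he : ∀ x, D x = D' x) : Win G D' :=
  h.mono fun x => (he x).le

theorem win_of_nonneg {D : Pt V E → ℤ} (h : ∀ x, 0 ≤ D x) : Win G D :=
  ⟨RatFun.const G 0, fun x => by rw [RatFun.div_const]; linarith [h x]⟩

/-- two chips on an edge, on both sides of a point, can be moved so that one of them reaches the
point -/
theorem win_two (C : Pt V E → ℤ) (hC : ∀ x, 0 ≤ C x) (e : E) (z₁ z₂ : ℝ) (t₀ : Set.Ioo (0 : ℝ) 1)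
    (hz₁ : z₁ < t₀) (hz₂ : (t₀ : ℝ) < z₂)
    (h₁ : (z₁ = 0 ∧ 1 ≤ C (Sum.inl (G.src e))) ∨
      ∃ h : z₁ ∈ Set.Ioo (0 : ℝ) 1, 1 ≤ C (Sum.inr (e, ⟨z₁, h⟩)))
    (h₂ : (z₂ = 1 ∧ 1 ≤ C (Sum.inl (G.tgt e))) ∨
      ∃ h : z₂ ∈ Set.Ioo (0 : ℝ) 1, 1 ≤ C (Sum.inr (e, ⟨z₂, h⟩))) :
    Win G (fun x => C x - one (Sum.inr (e, t₀)) x) := by
  classical
  have hz0 : 0 ≤ z₁ := by
    rcases h₁ with h | ⟨h, -⟩
    · exact h.1.ge
    · exact h.1.le
  have hz1 : z₂ ≤ 1 := by
    rcases h₂ with h | ⟨h, -⟩
    · exact h.1.le
    · exact h.2.le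
  set δ := min ((t₀ : ℝ) - z₁) (z₂ - t₀) with hδ
  have hδ0 : 0 < δ := lt_min (by linarith) (by linarith)
  have hδ1 : δ ≤ (t₀ : ℝ) - z₁ := min_le_left _ _
  have hδ2 : δ ≤ z₂ - t₀ := min_le_right _ _
  have hδ3 : δ = (t₀ : ℝ) - z₁ ∨ δ = z₂ - t₀ := min_choice _ _
  set p := z₁ + δ with hp
  set q := z₂ - δ with hq
  have hpq : p ≤ q := by linarith
  let T : RatFun G :=
    { onV := fun _ => 0
      onE := fun e' t => if e' = e then (if t ≤ z₁ then 0 else if t ≤ p then -(t - z₁)
        else if t ≤ q then -δ else if t ≤ z₂ then -(z₂ - t) else 0) else 0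
      right := fun e' t => if e' = e then (if t < z₁ then 0 else if t < p then -1
        else if t < q then 0 else if t < z₂ then 1 else 0) else 0
      left := fun e' t => if e' = e then (if t ≤ z₁ then 0 else if t ≤ p then 1
        else if t ≤ q then 0 else if t ≤ z₂ then -1 else 0) else 0
      at_src := fun e' => by
        by_cases h : e' = e
        · simp only [if_pos h, if_pos hz0]
        · simp only [if_neg h]
      at_tgt := fun e' => by
        by_cases h : e' = e
        · simp only [if_pos h]
          have a1 : ¬ (1 : ℝ) ≤ z₁ := by linarith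
          have a2 : ¬ (1 : ℝ) ≤ p := by linarith
          have a3 : ¬ (1 : ℝ) ≤ q := by linarith
          rw [if_neg a1, if_neg a2, if_neg a3]
          split_ifs with h1
          · linarith
          · rfl
        · simp only [if_neg h]
      pl := fun e' => by
        by_cases h : e' = e
        · simp only [if_pos h]
          exact PL.trap rfl (by rw [hq]; ring) hpq hδ0
        · simp only [if_neg h]
          exact PL.const 0 }
  refine ⟨T, ?_⟩
  change ∀ x, 0 ≤ C x - one (Sum.inr (e, t₀)) x + T.div x
  rintro (v | ⟨e', t⟩)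
  · have h0 : one (Sum.inr (e, t₀)) (Sum.inl v : Pt V E) = 0 := one_ne (by simp)
    have h1 : T.div (Sum.inl v) = (if G.src e = v then (if 0 < z₁ then 0 else -1) else 0) +
        (if G.tgt e = v then (if 1 ≤ z₂ then -1 else 0) else 0) := by
      simp only [RatFun.div]
      rw [Finset.sum_eq_single e]
      · simp only [T, if_true]
        have b1 : (0 : ℝ) < p := by linarith
        have a1 : ¬ (1 : ℝ) ≤ z₁ := by linarith
        have a2 : ¬ (1 : ℝ) ≤ p := by linarith
        have a3 : ¬ (1 : ℝ) ≤ q := by linarith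
        rw [if_pos b1, if_neg a1, if_neg a2, if_neg a3]
      · intro e' _ hne
        simp only [T, if_neg hne]
        simp
      · intro h
        exact absurd (Finset.mem_univ e) h
    rw [h0, h1]
    have hCv := hC (Sum.inl v)
    by_cases hs : G.src e = v
    · have ht : ¬ G.tgt e = v := fun h => G.ne e (hs.trans h.symm)
      rw [if_pos hs, if_neg ht]
      split_ifs with hz
      · linarith
      · rcases h₁ with h | ⟨h, -⟩
        · rw [hs] at h
          linarith [h.2]
        · exact absurd h.1 hz
    · rw [if_neg hs]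
      by_cases ht : G.tgt e = v
      · rw [if_pos ht]
        split_ifs with hz
        · rcases h₂ with h | ⟨h, -⟩
          · rw [ht] at h
            linarith [h.2]
          · exact absurd h.2 (not_lt.2 hz)
        · linarith
      · rw [if_neg ht]
        linarith
  · have hCv := hC (Sum.inr (e', t))
    by_cases he : e' = e
    · subst he
      have h1 : T.div (Sum.inr (e', t)) = (if (t : ℝ) < z₁ then 0 else if (t : ℝ) < p then -1
        else if (t : ℝ) < q then 0 else if (t : ℝ) < z₂ then 1 else 0) +
          (if (t : ℝ) ≤ z₁ then 0 else if (t : ℝ) ≤ p then 1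
        else if (t : ℝ) ≤ q then 0 else if (t : ℝ) ≤ z₂ then -1 else 0) := by
        simp only [RatFun.div, T, if_true]
      rw [h1]
      have hone : one (Sum.inr (e', t₀)) (Sum.inr (e', t) : Pt V E) = if t = t₀ then 1 else 0 := by
        unfold one
        by_cases h : t = t₀
        · simp [h]
        · simp [h]
      have hval : ∀ h : (t : ℝ) = t₀, t = t₀ := fun h => Subtype.ext h
      rcases lt_trichotomy (t : ℝ) z₁ with c | c | c
      · have : t ≠ t₀ := fun h => by rw [h] at c; linarith
        rw [hone, if_neg this, if_pos c, if_pos c.le]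
        linarith
      · have : t ≠ t₀ := fun h => by rw [h] at c; linarith
        rw [hone, if_neg this, if_neg (by linarith), if_pos (by linarith), if_pos c.le]
        have h3 : 1 ≤ C (Sum.inr (e', t)) := by
          rcases h₁ with h | ⟨h, h'⟩
          · exact absurd t.2.1 (by rw [c, h.1]; exact lt_irrefl _)
          · have : (⟨z₁, h⟩ : Set.Ioo (0 : ℝ) 1) = t := Subtype.ext c.symm
            rwa [this] at h'
        linarith
      · rcases lt_or_ge (t : ℝ) p with c2 | c2
        · have : t ≠ t₀ := fun h => by rw [h] at c2; linarith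
          rw [hone, if_neg this, if_neg (by linarith), if_pos c2, if_neg (by linarith),
            if_pos c2.le]
          linarith
        · have n1 : ¬ (t : ℝ) < z₁ := not_lt.2 c.le
          have n2 : ¬ (t : ℝ) < p := not_lt.2 c2
          have n3 : ¬ (t : ℝ) ≤ z₁ := not_le.2 c
          rcases le_or_gt (t : ℝ) q with c3 | c3
          · rw [hone, if_neg n1, if_neg n2, if_neg n3]
            by_cases h : t = t₀
            · rw [if_pos h]
              rcases hδ3 with k | k
              · have : (t : ℝ) ≤ p := by rw [h]; linarith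
                rw [if_pos this]
                split_ifs <;> linarith
              · have : ¬ (t : ℝ) < q := by rw [h]; linarith
                have h2 : (t : ℝ) < z₂ := by rw [h]; exact hz₂
                rw [if_neg this, if_pos h2]
                split_ifs <;> linarith
            · rw [if_neg h]
              split_ifs <;> linarith
          · have : t ≠ t₀ := fun h => by rw [h] at c3; linarith
            have n4 : ¬ (t : ℝ) < q := not_lt.2 c3.le
            have n5 : ¬ (t : ℝ) ≤ q := not_le.2 c3
            have n6 : ¬ (t : ℝ) ≤ p := not_le.2 (hpq.trans_lt c3)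
            rw [hone, if_neg this, if_neg n1, if_neg n2, if_neg n4, if_neg n3, if_neg n6,
              if_neg n5]
            rcases lt_trichotomy (t : ℝ) z₂ with d | d | d
            · rw [if_pos d, if_pos d.le]
              linarith
            · rw [if_neg (not_lt.2 d.ge), if_pos d.le]
              have h3 : 1 ≤ C (Sum.inr (e', t)) := by
                rcases h₂ with h | ⟨h, h'⟩
                · exact absurd t.2.2 (by rw [d, h.1]; exact lt_irrefl _)
                · have : (⟨z₂, h⟩ : Set.Ioo (0 : ℝ) 1) = t := Subtype.ext d.symm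
                  rwa [this] at h'
              linarith
            · rw [if_neg (not_lt.2 d.le), if_neg (not_le.2 d)]
              linarith
    · have h0 : one (Sum.inr (e, t₀)) (Sum.inr (e', t) : Pt V E) = 0 :=
        one_ne (by simp [he])
      have h1 : T.div (Sum.inr (e', t)) = 0 := by
        simp only [RatFun.div, T, if_neg he]
        rfl
      rw [h0, h1]
      linarith

/-- the rank on an edge is controlled by its ends -/
theorem win_edge (D : Pt V E → ℤ) (e : E) (t₀ : Set.Ioo (0 : ℝ) 1)
    (ha : Win G (fun x => D x - one (Sum.inl (G.src e)) x))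
    (hb : Win G (fun x => D x - one (Sum.inl (G.tgt e)) x)) :
    Win G (fun x => D x - one (Sum.inr (e, t₀)) x) := by
  obtain ⟨A, hA⟩ := ha
  obtain ⟨B₀, hB₀⟩ := hb
  replace hA : ∀ x, 0 ≤ D x - one (Sum.inl (G.src e)) x + A.div x := hA
  set B := B₀.add (RatFun.const G (A.onE e t₀ - B₀.onE e t₀)) with hBdef
  have hBdiv : ∀ x, B.div x = B₀.div x := fun x => by
    rw [hBdef, RatFun.div_add, RatFun.div_const, add_zero]
  have hB : ∀ x, 0 ≤ D x - one (Sum.inl (G.tgt e)) x + B.div x := fun x => by
    rw [hBdiv]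
    exact hB₀ x
  have hA' : ∀ x, 0 ≤ D x + A.div x := fun x => by
    linarith [hA x, one_nonneg (Sum.inl (G.src e)) x]
  have hB' : ∀ x, 0 ≤ D x + B.div x := fun x => by
    linarith [hB x, one_nonneg (Sum.inl (G.tgt e)) x]
  have hA1 : 1 ≤ D (Sum.inl (G.src e)) + A.div (Sum.inl (G.src e)) := by
    have := hA (Sum.inl (G.src e))
    rw [one_self] at this
    linarith
  have hB1 : 1 ≤ D (Sum.inl (G.tgt e)) + B.div (Sum.inl (G.tgt e)) := by
    have := hB (Sum.inl (G.tgt e))
    rw [one_self] at this
    linarith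
  have ht0 : A.onE e t₀ = B.onE e t₀ := by
    simp only [hBdef, RatFun.add, RatFun.const]
    ring
  set g := A.sup B with hg
  have hC : ∀ x, 0 ≤ D x + g.div x := RatFun.sup_nonneg A B D hA' hB'
  -- a point where the values agree and a slope differs carries a chip
  have hchip : ∀ s : Set.Ioo (0 : ℝ) 1, A.onE e s = B.onE e s →
      (A.left e s ≠ B.left e s ∨ A.right e s ≠ B.right e s) →
      1 ≤ D (Sum.inr (e, s)) + g.div (Sum.inr (e, s)) := by
    intro s hs hne
    have e1 : g.div (Sum.inr (e, s)) = max (A.right e s) (B.right e s) +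
        max (A.left e s) (B.left e s) := by
      simp only [hg, RatFun.div, RatFun.sup, hs, PL.ms_eq]
    have e2 := hA' (Sum.inr (e, s))
    have e3 := hB' (Sum.inr (e, s))
    simp only [RatFun.div] at e2 e3
    rw [e1]
    have m1 := le_max_left (A.right e s) (B.right e s)
    have m2 := le_max_right (A.right e s) (B.right e s)
    have m3 := le_max_left (A.left e s) (B.left e s)
    have m4 := le_max_right (A.left e s) (B.left e s)
    rcases hne with h | h
    · rcases lt_or_gt_of_ne h with h | h
      · linarith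
      · linarith
    · rcases lt_or_gt_of_ne h with h | h
      · linarith
      · linarith
  by_cases hx : 1 ≤ D (Sum.inr (e, t₀)) + g.div (Sum.inr (e, t₀))
  · refine ⟨g, fun x => ?_⟩
    change 0 ≤ D x - one (Sum.inr (e, t₀)) x + g.div x
    by_cases hxe : x = Sum.inr (e, t₀)
    · rw [hxe, one_self]
      linarith
    · rw [one_ne hxe]
      linarith [hC x]
  have hPL := (A.pl e).add (B.pl e).neg
  -- left side
  have hleft : ∃ z₁ : ℝ, z₁ < t₀ ∧
      ((z₁ = 0 ∧ 1 ≤ D (Sum.inl (G.src e)) + g.div (Sum.inl (G.src e))) ∨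
      ∃ h : z₁ ∈ Set.Ioo (0 : ℝ) 1,
        1 ≤ D (Sum.inr (e, ⟨z₁, h⟩)) + g.div (Sum.inr (e, ⟨z₁, h⟩))) := by
    rcases hPL.zero_left (t₀ := t₀) t₀.2.2.le (by simp only [ht0]; ring) with h | ⟨s, hs0, hst, hs, hL⟩
    · refine ⟨0, t₀.2.1, Or.inl ⟨rfl, ?_⟩⟩
      have h0 := h 0 le_rfl t₀.2.1.le
      simp only [A.at_src, B.at_src] at h0
      have := RatFun.div_le_sup_left A B (Sum.inl (G.src e))
        (by simp only [RatFun.at']; linarith)
      linarith
    · have hs1 : s ∈ Set.Ioo (0 : ℝ) 1 := ⟨hs0, hst.trans_lt t₀.2.2⟩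
      have hch := hchip ⟨s, hs1⟩ (by simp only; linarith) (Or.inl fun h => hL (by
        simp only [h]
        ring))
      have hne : s ≠ t₀ := by
        intro h
        apply hx
        have : (⟨s, hs1⟩ : Set.Ioo (0 : ℝ) 1) = t₀ := Subtype.ext h
        rwa [this] at hch
      exact ⟨s, lt_of_le_of_ne hst hne, Or.inr ⟨hs1, hch⟩⟩
  have hright : ∃ z₂ : ℝ, (t₀ : ℝ) < z₂ ∧
      ((z₂ = 1 ∧ 1 ≤ D (Sum.inl (G.tgt e)) + g.div (Sum.inl (G.tgt e))) ∨
      ∃ h : z₂ ∈ Set.Ioo (0 : ℝ) 1,
        1 ≤ D (Sum.inr (e, ⟨z₂, h⟩)) + g.div (Sum.inr (e, ⟨z₂, h⟩))) := by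
    rcases hPL.rev.zero_left (t₀ := 1 - t₀) (by linarith [t₀.2.1])
      (by simp only [sub_sub_cancel, ht0]; ring) with h | ⟨s, hs0, hst, hs, hL⟩
    · refine ⟨1, t₀.2.2, Or.inl ⟨rfl, ?_⟩⟩
      have h0 := h 0 le_rfl (by linarith [t₀.2.2])
      simp only [sub_zero, A.at_tgt, B.at_tgt] at h0
      have := RatFun.div_le_sup_right A B (Sum.inl (G.tgt e))
        (by simp only [RatFun.at']; linarith)
      linarith
    · have hs1 : 1 - s ∈ Set.Ioo (0 : ℝ) 1 := ⟨by linarith [t₀.2.1], by linarith⟩
      have hch := hchip ⟨1 - s, hs1⟩ (by simp only at hs ⊢; linarith)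
        (Or.inr fun h => hL (by
        simp only [h]
        ring))
      have hne : (t₀ : ℝ) ≠ 1 - s := by
        intro h
        apply hx
        have : (⟨1 - s, hs1⟩ : Set.Ioo (0 : ℝ) 1) = t₀ := Subtype.ext h.symm
        rwa [this] at hch
      exact ⟨1 - s, lt_of_le_of_ne (by linarith) hne, Or.inr ⟨hs1, hch⟩⟩
  obtain ⟨z₁, hz₁, h₁⟩ := hleft
  obtain ⟨z₂, hz₂, h₂⟩ := hright
  obtain ⟨T, hT⟩ := win_two (G := G) (fun x => D x + g.div x) hC e z₁ z₂ t₀ hz₁ hz₂ h₁ h₂
  refine ⟨g.add T, fun x => ?_⟩
  rw [RatFun.div_add]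
  linarith [hT x]

end

/-- the divisor of a list of points -/
noncomputable def cnt (l : List (Pt V E)) (x : Pt V E) : ℤ := (l.map fun p => one p x).sum

theorem cnt_nil (x : Pt V E) : cnt [] x = 0 := by simp [cnt]

theorem cnt_cons (p : Pt V E) (l : List (Pt V E)) (x : Pt V E) :
    cnt (p :: l) x = one p x + cnt l x := by simp [cnt]

theorem deg_add (A B : Pt V E →₀ ℤ) : deg (A + B) = deg A + deg B := by
  unfold deg
  exact Finsupp.sum_add_index' (fun _ => rfl) (fun _ _ _ => rfl)

theorem deg_single (p : Pt V E) (n : ℤ) : deg (Finsupp.single p n) = n := by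
  unfold deg
  exact Finsupp.sum_single_index rfl

theorem exists_list (r : ℕ) : ∀ A : Pt V E →₀ ℤ, (∀ x, 0 ≤ A x) → deg A = (r : ℤ) →
    ∃ l : List (Pt V E), l.length = r ∧ ∀ x, A x = cnt l x := by
  classical
  induction r with
  | zero =>
    intro A hA hd
    refine ⟨[], rfl, fun x => ?_⟩
    rw [cnt_nil]
    unfold deg Finsupp.sum at hd
    have h := (Finset.sum_eq_zero_iff_of_nonneg (fun x _ => hA x)).1 (by simpa using hd)
    by_contra hne
    exact hne (h x (Finsupp.mem_support_iff.2 hne))
  | succ r ih =>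
    intro A hA hd
    have hex : ∃ p, A p ≠ 0 := by
      by_contra hc
      push Not at hc
      have : A = 0 := Finsupp.ext hc
      rw [this] at hd
      simp only [deg, Finsupp.sum_zero_index] at hd
      push_cast at hd
      linarith [Int.natCast_nonneg r]
    obtain ⟨p, hp⟩ := hex
    have hp1 : 1 ≤ A p := by
      have := hA p
      omega
    obtain ⟨l, hl, hlx⟩ := ih (A + Finsupp.single p (-1)) (fun x => by
      rw [Finsupp.add_apply, Finsupp.single_apply]
      split_ifs with h
      · subst h
        linarith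
      · linarith [hA x]) (by
      rw [deg_add, deg_single, hd]
      push_cast
      ring)
    refine ⟨p :: l, by simp [hl], fun x => ?_⟩
    rw [cnt_cons, ← hlx, Finsupp.add_apply, Finsupp.single_apply]
    by_cases h : x = p
    · subst h
      rw [one_self, if_pos rfl]
      ring
    · rw [one_ne h, if_neg (Ne.symm h)]
      ring

section

variable [Fintype E] [DecidableEq V] {G : MGraph V E}

theorem win_list (D : Pt V E → ℤ) (r : ℕ)
    (H : ∀ m : List V, m.length = r → Win G (fun x => D x - cnt (m.map Sum.inl) x)) :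
    ∀ (l : List (Pt V E)) (m : List V), l.length + m.length = r →
      Win G (fun x => D x - cnt l x - cnt (m.map Sum.inl) x) := by
  intro l
  induction l with
  | nil =>
    intro m hm
    refine (H m (by simpa using hm)).congr fun x => ?_
    rw [cnt_nil]
    ring
  | cons p l ih =>
    intro m hm
    have hv : ∀ v : V, Win G (fun x => (D x - cnt l x - cnt (m.map Sum.inl) x) -
        one (Sum.inl v) x) := by
      intro v
      refine (ih (v :: m) (by simp only [List.length_cons] at hm ⊢; omega)).congr fun x => ?_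
      rw [List.map_cons, cnt_cons]
      ring
    rcases p with v | ⟨e, t⟩
    · refine (hv v).congr fun x => ?_
      rw [cnt_cons]
      ring
    · refine (win_edge _ e t (hv _) (hv _)).congr fun x => ?_
      rw [cnt_cons]
      ring

/-- the rank of a divisor on the metric graph is detected on the vertices -/
theorem mrank_of_vertices (D : Pt V E →₀ ℤ) (r : ℕ)
    (H : ∀ m : List V, m.length = r → Win G (fun x => D x - cnt (m.map Sum.inl) x)) :
    G.MRankGe r D := by
  intro A hA hd
  obtain ⟨l, hl, hlx⟩ := exists_list r A hA hd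
  obtain ⟨F, hF⟩ := win_list D r H l [] (by simpa using hl)
  refine ⟨F, fun x => ?_⟩
  have := hF x
  simp only [List.map_nil, cnt_nil] at this
  rw [hlx x]
  linarith

variable [Fintype V]

/-- a divisor on the graph, as a divisor on the metric graph -/
noncomputable def emb (D : V → ℤ) : Pt V E →₀ ℤ := ∑ v, Finsupp.single (Sum.inl v) (D v)

omit [Fintype E] in
theorem emb_inl (D : V → ℤ) (v : V) : (emb D : Pt V E →₀ ℤ) (Sum.inl v) = D v := by
  classical
  rw [emb, Finsupp.finsetSum_apply, Finset.sum_eq_single v]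
  · simp
  · intro w _ hw
    rw [Finsupp.single_apply, if_neg (by simpa using hw)]
  · intro h
    exact absurd (Finset.mem_univ v) h

omit [Fintype E] [DecidableEq V] in
theorem emb_inr (D : V → ℤ) (p : E × Set.Ioo (0 : ℝ) 1) :
    (emb D : Pt V E →₀ ℤ) (Sum.inr p) = 0 := by
  classical
  rw [emb, Finsupp.finsetSum_apply]
  refine Finset.sum_eq_zero fun w _ => ?_
  rw [Finsupp.single_apply, if_neg (by simp)]

omit [Fintype E] [DecidableEq V] in
theorem deg_emb (D : V → ℤ) : deg (emb D : Pt V E →₀ ℤ) = ∑ v, D v := by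
  classical
  have : ∀ s : Finset V, deg (∑ v ∈ s, Finsupp.single (Sum.inl v) (D v) : Pt V E →₀ ℤ) =
      ∑ v ∈ s, D v := by
    intro s
    induction s using Finset.induction_on with
    | empty => simp [deg]
    | insert a s ha ih => rw [Finset.sum_insert ha, Finset.sum_insert ha, deg_add, deg_single, ih]
  exact this _

omit [Fintype V] in
/-- winnable on the graph implies winnable on the metric graph -/
theorem win_of_fire (D : V → ℤ) (f : V → ℤ) (h : ∀ v, 0 ≤ D v + G.fire f v)
    (D' : Pt V E → ℤ) (h1 : ∀ v, D v ≤ D' (Sum.inl v)) (h2 : ∀ p, 0 ≤ D' (Sum.inr p)) :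
    Win G D' := by
  refine ⟨RatFun.ofInt G f, ?_⟩
  rintro (v | ⟨e, t⟩)
  · rw [RatFun.div_ofInt_vertex]
    linarith [h v, h1 v]
  · rw [RatFun.div_ofInt_edge]
    linarith [h2 (e, t)]

theorem mrank_of_rank (D : V → ℤ) (r : ℕ) (h : G.RankGe r D) : G.MRankGe r (emb D) := by
  classical
  refine mrank_of_vertices _ r fun m hm => ?_
  obtain ⟨f, hf⟩ := h (fun v => (m.map fun w => if v = w then (1 : ℤ) else 0).sum)
    (fun v => List.sum_nonneg (by
      intro x hx
      rw [List.mem_map] at hx
      obtain ⟨w, -, rfl⟩ := hx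
      split_ifs <;> norm_num)) (by
      have : ∀ m : List V, ∑ v, (m.map fun w => if v = w then (1 : ℤ) else 0).sum = m.length := by
        intro m
        induction m with
        | nil => simp
        | cons a m ih =>
          simp only [List.map_cons, List.sum_cons, Finset.sum_add_distrib, ih, List.length_cons]
          simp
          ring
      rw [this, hm])
  refine win_of_fire (fun v => D v - (m.map fun w => if v = w then (1 : ℤ) else 0).sum) f hf _ ?_ ?_
  · intro v
    rw [emb_inl]
    have : cnt (m.map Sum.inl) (Sum.inl v : Pt V E) =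
        (m.map fun w => if v = w then (1 : ℤ) else 0).sum := by
      rw [cnt, List.map_map]
      congr 1
      refine List.map_congr_left fun w _ => ?_
      simp only [Function.comp, one, Sum.inl.injEq]
    rw [this]
  · intro p
    rw [emb_inr]
    have : cnt (m.map Sum.inl) (Sum.inr p : Pt V E) = 0 := by
      rw [cnt, List.map_map]
      refine List.sum_eq_zero fun x hx => ?_
      rw [List.mem_map] at hx
      obtain ⟨w, -, rfl⟩ := hx
      exact one_ne (by simp)
    rw [this]
    simp

end

end Pool.Agent.Q254.Gonal
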